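import Pool.Agent.Y226.ZU.Par
import Pool.Agent.Y226.ZM.L3
import Mathlib

/-!
# Unramified places of number fields
-/

set_option autoImplicit false
set_option linter.unusedSectionVars false

open UpperHalfPlane H294ZP Polynomial IsDedekindDomain NumberField

namespace Pool.Agent.Y226.ZG

open Pool.Agent.Y226

variable {C : Type} [NormedField C] [IsUltrametricDist C] [CompleteSpace C] [CharZero C]
  [IsAlgClosed C] {p : ℕ} [hpf : Fact p.Prime] {K : Type} [Field K] [NumberField K]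

theorem int_norm_le (ι : K →+* C) (x : 𝓞 K) : ‖ι (algebraMap (𝓞 K) K x)‖ ≤ 1 := by
  obtain ⟨P, hP, h⟩ : IsIntegral ℤ (algebraMap (𝓞 K) K x) := RingOfIntegers.isIntegral_coe x
  refine norm_le_one_of_monic (ψ := Int.castRingHom C) (fun r => nint r) hP ?_
  have h1 := congrArg ι h
  rw [map_zero, hom_eval₂] at h1
  convert h1 using 2
  exact RingHom.ext_int _ _

/-- the prime ideal defined by an embedding -/
def qI (ι : K →+* C) : Ideal (𝓞 K) where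
  carrier := {x | ‖ι (algebraMap (𝓞 K) K x)‖ < 1}
  add_mem' := fun {a b} ha hb => by
    show ‖ι (algebraMap (𝓞 K) K (a + b))‖ < 1
    rw [map_add, map_add]
    exact nadd_lt ha hb
  zero_mem' := by
    show ‖ι (algebraMap (𝓞 K) K 0)‖ < 1
    simp
  smul_mem' := fun c {x} hx => by
    show ‖ι (algebraMap (𝓞 K) K (c * x))‖ < 1
    rw [map_mul, map_mul, norm_mul]
    have h1 := int_norm_le ι c
    have h2 : ‖ι (algebraMap (𝓞 K) K x)‖ < 1 := hx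
    have := norm_nonneg (ι (algebraMap (𝓞 K) K x))
    have := norm_nonneg (ι (algebraMap (𝓞 K) K c))
    nlinarith

theorem mem_qI {ι : K →+* C} {x : 𝓞 K} : x ∈ qI ι ↔ ‖ι (algebraMap (𝓞 K) K x)‖ < 1 := Iff.rfl

theorem qI_prime (ι : K →+* C) : (qI ι).IsPrime := by
  refine ⟨?_, ?_⟩
  · rw [Ideal.ne_top_iff_one, mem_qI]
    simp
  · intro x y hxy
    rw [mem_qI, map_mul, map_mul, norm_mul] at hxy
    by_contra hcon
    push Not at hcon
    rw [mem_qI, mem_qI, not_lt, not_lt] at hcon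
    nlinarith [hcon.1, hcon.2]

theorem natCast_dvd_of_mem {v : HeightOneSpectrum (𝓞 K)} (hpv : (p : 𝓞 K) ∈ v.asIdeal) {m : ℕ}
    (hm : (m : 𝓞 K) ∈ v.asIdeal) : p ∣ m := by
  by_contra hdvd
  have hco : Nat.Coprime p m := (Nat.Prime.coprime_iff_not_dvd hpf.out).2 hdvd
  obtain ⟨a, b, hab⟩ := Nat.isCoprime_iff_coprime.2 hco
  apply v.isPrime.ne_top
  rw [Ideal.eq_top_iff_one]
  have h1 : ((a * p + b * m : ℤ) : 𝓞 K) = 1 := by rw [hab]; simp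
  rw [← h1]
  push_cast
  exact add_mem (Ideal.mul_mem_left _ _ hpv) (Ideal.mul_mem_left _ _ hm)

/-- an embedding which induces a given prime -/
theorem exists_embedding (hp1 : ‖(p : C)‖ < 1) (v : HeightOneSpectrum (𝓞 K))
    (hpv : (p : 𝓞 K) ∈ v.asIdeal) : ∃ ι : K →+* C, ∀ x : 𝓞 K, ‖ι (algebraMap (𝓞 K) K x)‖ < 1 ↔ x ∈ v.asIdeal := by
  classical
  by_contra hcon
  push Not at hcon
  have hle : ∀ ι : K →ₐ[ℚ] C, ¬ v.asIdeal ≤ qI (ι : K →+* C) := by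
    intro ι h
    have heq : v.asIdeal = qI (ι : K →+* C) :=
      v.isMaximal.eq_of_le (qI_prime _).ne_top h
    obtain ⟨x, hx⟩ := hcon (ι : K →+* C)
    rw [heq, mem_qI] at hx
    rcases hx with ⟨h1, h2⟩ | ⟨h1, h2⟩
    · exact h2 h1
    · exact absurd h2 (not_lt.2 h1)
  let ι₀ : K →ₐ[ℚ] C := IsAlgClosed.lift
  obtain ⟨a, ha, ha'⟩ : ∃ a ∈ v.asIdeal, ∀ ι : K →ₐ[ℚ] C, a ∉ qI (ι : K →+* C) := by
    by_contra hno
    push Not at hno
    have hsub : (v.asIdeal : Set (𝓞 K)) ⊆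
        ⋃ ι ∈ ((Finset.univ : Finset (K →ₐ[ℚ] C)) : Set (K →ₐ[ℚ] C)),
        (qI ((ι : K →ₐ[ℚ] C) : K →+* C) : Set (𝓞 K)) := by
      intro a ha
      obtain ⟨ι, hι⟩ := hno a ha
      rw [Set.mem_iUnion₂]
      exact ⟨ι, by simp, hι⟩
    obtain ⟨ι, -, hι⟩ := (Ideal.subset_union_prime (f := fun ι : K →ₐ[ℚ] C => qI (ι : K →+* C))
      ι₀ ι₀ (fun ι _ _ _ => qI_prime _)).1 hsub
    exact hle ι hι
  have hnorm1 : ∀ ι : K →ₐ[ℚ] C, ‖ι (algebraMap (𝓞 K) K a)‖ = 1 := by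
    intro ι
    refine le_antisymm (int_norm_le (ι : K →+* C) a) ?_
    have := ha' ι
    rw [mem_qI, not_lt] at this
    exact this
  have h1 := Algebra.norm_eq_prod_embeddings ℚ C (algebraMap (𝓞 K) K a)
  have h2 : ‖algebraMap ℚ C (Algebra.norm ℚ (algebraMap (𝓞 K) K a))‖ = 1 := by
    rw [h1, norm_prod]
    exact Finset.prod_eq_one fun ι _ => hnorm1 ι
  have h3 : ((Algebra.norm ℤ a).natAbs : 𝓞 K) ∈ v.asIdeal := by
    rw [← Ideal.absNorm_span_singleton]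
    exact (Ideal.span_singleton_le_iff_mem _).2 ha (Ideal.absNorm_mem _)
  have h4 := natCast_dvd_of_mem hpv h3
  obtain ⟨b, hb⟩ := Int.natCast_dvd.2 h4
  rw [← Algebra.coe_norm_int, hb] at h2
  have h5 : algebraMap ℚ C (((p : ℤ) * b : ℤ) : ℚ) = (p : C) * (b : C) := by
    rw [eq_ratCast]
    push_cast
    rfl
  rw [h5, norm_mul] at h2
  have h6 := nint (C := C) b
  have h7 := norm_nonneg (b : C)
  have h8 := norm_nonneg (p : C)
  nlinarith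

/-- extension of an embedding -/
theorem exists_phi (σ : K →+* QA) (ι : K →+* C) : ∃ φ' : QA →+* C, ∀ x, φ' (σ x) = ι x := by
  letI := σ.toAlgebra
  letI := ι.toAlgebra
  haveI : IsScalarTower ℚ K QA := IsScalarTower.of_algebraMap_eq' (RingHom.ext_rat _ _)
  haveI : Algebra.IsAlgebraic K QA := Algebra.IsAlgebraic.tower_top (K := ℚ) K
  let φ : QA →ₐ[K] C := IsAlgClosed.lift
  exact ⟨φ, fun x => φ.commutes x⟩

open WithZero

section val

variable {v : HeightOneSpectrum (𝓞 K)} {ι : K →+* C}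

theorem norm_unit (hι : ∀ x : 𝓞 K, ‖ι (algebraMap (𝓞 K) K x)‖ < 1 ↔ x ∈ v.asIdeal) {x : 𝓞 K}
    (hx : x ∉ v.asIdeal) : ‖ι (algebraMap (𝓞 K) K x)‖ = 1 :=
  le_antisymm (int_norm_le _ _) (not_lt.1 fun h => hx ((hι x).1 h))

theorem norm_of_val_one (hι : ∀ x : 𝓞 K, ‖ι (algebraMap (𝓞 K) K x)‖ < 1 ↔ x ∈ v.asIdeal) {x : K}
    (hx : v.valuation K x = 1) : ‖ι x‖ = 1 := by
  obtain ⟨n, d, hnd⟩ := v.exists_primeCompl_mul_eq_of_integer x hx.le
  have hd : (d : 𝓞 K) ∉ v.asIdeal := d.2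
  have hn : n ∉ v.asIdeal := by
    rw [← HeightOneSpectrum.valuation_eq_one_iff_notMem (K := K), ← hnd, map_mul, hx, one_mul,
      HeightOneSpectrum.valuation_eq_one_iff_notMem]
    exact hd
  have h := congrArg (fun y => ‖ι y‖) hnd
  simp only [map_mul, norm_mul] at h
  rw [norm_unit hι hd, norm_unit hι hn, mul_one] at h
  exact h

theorem val_p (hpv : (p : 𝓞 K) ∈ v.asIdeal) (hpv2 : (p : 𝓞 K) ∉ v.asIdeal ^ 2) :
    v.valuation K (p : K) = exp (-1 : ℤ) := by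
  have hne : (p : 𝓞 K) ≠ 0 := by exact_mod_cast hpf.out.ne_zero
  have e : (p : K) = algebraMap (𝓞 K) K (p : 𝓞 K) := by simp
  rw [e, v.valuation_of_algebraMap]
  obtain ⟨k, hk⟩ : ∃ k : ℕ, v.intValuation (p : 𝓞 K) = exp (-(k : ℤ)) :=
    ⟨_, v.intValuation_if_neg hne⟩
  have h1 := (v.intValuation_le_pow_iff_mem (p : 𝓞 K) 1).2 (by rwa [pow_one])
  have h2 : ¬ v.intValuation (p : 𝓞 K) ≤ exp (-((2 : ℕ) : ℤ)) := fun h =>
    hpv2 ((v.intValuation_le_pow_iff_mem (p : 𝓞 K) 2).1 h)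
  rw [hk, exp_le_exp] at h1 h2
  rw [hk]
  congr 1
  push_cast at h1 h2
  omega

theorem norm_of_val (hp0 : 0 < ‖(p : C)‖) (hpv : (p : 𝓞 K) ∈ v.asIdeal)
    (hpv2 : (p : 𝓞 K) ∉ v.asIdeal ^ 2)
    (hι : ∀ x : 𝓞 K, ‖ι (algebraMap (𝓞 K) K x)‖ < 1 ↔ x ∈ v.asIdeal) {x : K} {m : ℤ}
    (hx : v.valuation K x = exp m) : ‖ι x‖ = ‖(p : C)‖ ^ (-m) := by
  have h1 : v.valuation K (x * (p : K) ^ m) = 1 := by
    rw [map_mul, map_zpow₀, hx, val_p hpv hpv2, ← exp_zsmul, ← exp_add]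
    simp
  have h2 := norm_of_val_one hι h1
  rw [map_mul, map_zpow₀, map_natCast, norm_mul, norm_zpow] at h2
  rw [zpow_neg]
  exact eq_inv_of_mul_eq_one_left h2

theorem norm_le_of_val (hp0 : 0 < ‖(p : C)‖) (hp1 : ‖(p : C)‖ < 1) (hpv : (p : 𝓞 K) ∈ v.asIdeal)
    (hpv2 : (p : 𝓞 K) ∉ v.asIdeal ^ 2)
    (hι : ∀ x : 𝓞 K, ‖ι (algebraMap (𝓞 K) K x)‖ < 1 ↔ x ∈ v.asIdeal) {x y : K}
    (hxy : v.valuation K x < v.valuation K y) : ‖ι x‖ ≤ ‖(p : C)‖ * ‖ι y‖ := by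
  by_cases hx : x = 0
  · rw [hx, map_zero, norm_zero]
    positivity
  have hx0 : v.valuation K x ≠ 0 := (Valuation.ne_zero_iff _).2 hx
  have hy0 : v.valuation K y ≠ 0 := fun h => by
    rw [h] at hxy
    exact not_lt_zero' hxy
  have hx' := (exp_log hx0).symm
  have hy' := (exp_log hy0).symm
  have hlt : log (v.valuation K x) < log (v.valuation K y) := by
    rw [hx', hy', exp_lt_exp] at hxy
    exact hxy
  rw [norm_of_val hp0 hpv hpv2 hι hx', norm_of_val hp0 hpv hpv2 hι hy', ← zpow_one_add₀ hp0.ne']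
  exact zpow_le_zpow_right_of_le_one₀ hp0 hp1.le (by omega)

theorem residue_pow (hpv : (p : 𝓞 K) ∈ v.asIdeal) {B : ℕ}
    (hB : Nat.card (𝓞 K ⧸ v.asIdeal) ≤ B) (z : 𝓞 K ⧸ v.asIdeal) : z ^ p ^ B.factorial = z := by
  haveI := v.isMaximal
  letI : Field (𝓞 K ⧸ v.asIdeal) := Ideal.Quotient.field v.asIdeal
  haveI : Finite (𝓞 K ⧸ v.asIdeal) := inferInstance
  letI := Fintype.ofFinite (𝓞 K ⧸ v.asIdeal)
  have h0 : ((p : ℕ) : 𝓞 K ⧸ v.asIdeal) = 0 := by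
    have : ((p : ℕ) : 𝓞 K ⧸ v.asIdeal) = Ideal.Quotient.mk v.asIdeal (p : 𝓞 K) := by simp
    rw [this, Ideal.Quotient.eq_zero_iff_mem]
    exact hpv
  haveI : CharP (𝓞 K ⧸ v.asIdeal) p := (CharP.charP_iff_prime_eq_zero hpf.out).2 h0
  obtain ⟨m, -, hm⟩ := FiniteField.card (𝓞 K ⧸ v.asIdeal) p
  have hmB : (m : ℕ) ≤ B := by
    rw [Nat.card_eq_fintype_card, hm] at hB
    exact ((Nat.lt_pow_self hpf.out.one_lt).le).trans hB
  obtain ⟨t, ht⟩ := Nat.dvd_factorial m.2 hmB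
  have h5 : z ^ (Fintype.card (𝓞 K ⧸ v.asIdeal)) ^ t = z := FiniteField.pow_card_pow t z
  rw [hm] at h5
  rw [ht, pow_mul]
  exact h5

theorem unr_range (hp0 : 0 < ‖(p : C)‖) (hp1 : ‖(p : C)‖ < 1) (hpv : (p : 𝓞 K) ∈ v.asIdeal)
    (hpv2 : (p : 𝓞 K) ∉ v.asIdeal ^ 2)
    (hι : ∀ x : 𝓞 K, ‖ι (algebraMap (𝓞 K) K x)‖ < 1 ↔ x ∈ v.asIdeal) {B : ℕ}
    (hB : Nat.card (𝓞 K ⧸ v.asIdeal) ≤ B) : Unr p ι.fieldRange B.factorial := by
  rintro _ ⟨x, rfl⟩ hx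
  set q := p ^ B.factorial with hq
  by_cases hx0 : x = 0
  · have hq0 : q ≠ 0 := (pow_pos hpf.out.pos _).ne'
    rw [hx0, map_zero, zero_pow hq0, sub_zero, norm_zero]
    exact hp0.le
  have hv0 : v.valuation K x ≠ 0 := (Valuation.ne_zero_iff _).2 hx0
  have hv' := (exp_log hv0).symm
  have hle : v.valuation K x ≤ 1 := by
    rw [hv', ← exp_zero, exp_le_exp]
    rw [norm_of_val hp0 hpv hpv2 hι hv'] at hx
    by_contra hcon
    push Not at hcon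
    have h1 : 1 < ‖(p : C)‖ ^ (-log (v.valuation K x)) := by
      rw [zpow_neg]
      refine (one_lt_inv₀ (zpow_pos hp0 _)).2 ?_
      obtain ⟨m, hm⟩ := Int.eq_ofNat_of_zero_le hcon.le
      rw [hm, zpow_natCast]
      exact pow_lt_one₀ (norm_nonneg _) hp1 (by omega)
    linarith
  obtain ⟨n, d, hnd⟩ := v.exists_primeCompl_mul_eq_of_integer x hle
  have hd : (d : 𝓞 K) ∉ v.asIdeal := d.2
  have hd1 := norm_unit hι hd
  have hz : n ^ q * (d : 𝓞 K) - n * (d : 𝓞 K) ^ q ∈ v.asIdeal := by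
    rw [← Ideal.Quotient.eq_zero_iff_mem, map_sub, map_mul, map_mul, map_pow, map_pow,
      residue_pow hpv hB, residue_pow hpv hB, sub_self]
  have hz2 : ‖ι (algebraMap (𝓞 K) K (n ^ q * (d : 𝓞 K) - n * (d : 𝓞 K) ^ q))‖ ≤ ‖(p : C)‖ := by
    have h1 : v.valuation K (algebraMap (𝓞 K) K (n ^ q * (d : 𝓞 K) - n * (d : 𝓞 K) ^ q)) <
        v.valuation K (1 : K) := by
      rw [map_one]
      exact (HeightOneSpectrum.valuation_lt_one_iff_mem (K := K) v _).2 hz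
    have h2 := norm_le_of_val hp0 hp1 hpv hpv2 hι h1
    rwa [map_one, norm_one, mul_one] at h2
  have hrel : (ι x ^ q - ι x) * ι (algebraMap (𝓞 K) K (d : 𝓞 K)) ^ (q + 1) =
      ι (algebraMap (𝓞 K) K (n ^ q * (d : 𝓞 K) - n * (d : 𝓞 K) ^ q)) := by
    have h1 := congrArg ι hnd
    rw [map_mul] at h1
    rw [map_sub, map_mul, map_mul, map_pow, map_pow, map_sub, map_mul, map_mul, map_pow, map_pow,
      ← h1]
    ring
  have h3 := congrArg norm hrel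
  rw [norm_mul, norm_pow, hd1, one_pow, mul_one] at h3
  rw [h3]
  exact hz2

end val

end Pool.Agent.Y226.ZG
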