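import Pool.Agent.Y226.ZM.L3

/-!
# The local theorem, uniformly in the parameters
-/

set_option autoImplicit false
set_option linter.unusedSectionVars false

open UpperHalfPlane H294ZP Polynomial

namespace Pool.Agent.Y226.ZG

open Pool.Agent.Y226

/-- the local data which depend on the parameters -/
structure Dyn (C : Type) [NormedField C] [IsUltrametricDist C] (p : ℕ) [Fact p.Prime]
    (n W : ℕ) where
  Λ : Fin n → Cˣ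
  w : Fin n → ℕ
  hw : ∀ i, 0 < w i ∧ w i ≤ W
  e : ℕ
  he : 0 < e
  pu : Cˣ
  hpu : (pu : C) = p
  hΛ : ∀ i, Λ i * pu ^ (w i * e) ∈ GG C p 0 le_rfl one_pos
  tm : Fin n → C
  htm : ∀ i, ‖tm i‖ ≤ ‖(p : C)‖ * ‖((Λ i : Cˣ) : C)‖

namespace Loc

variable {C : Type} [NormedField C] [IsUltrametricDist C] [CompleteSpace C] [CharZero C]
  [IsAlgClosed C] {p : ℕ} [hpf : Fact p.Prime] {k : Type}
  [Field k] {n N W M d D : ℕ} (𝓛 : Loc C p k n N W M d D)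

/-- the local data with other parameters and another embedding -/
def upd (φ' : QA →+* C) (hφ' : ∀ r : 𝓛.R, φ' r = 𝓛.φ r) (𝓓 : Dyn C p n W) :
    Loc C p k n N W M d D :=
  { 𝓛 with
    φ := φ'
    hR := fun r => by rw [hφ']; exact 𝓛.hR r
    Λ := 𝓓.Λ
    w := 𝓓.w
    hw := 𝓓.hw
    e := 𝓓.e
    he := 𝓓.he
    pu := 𝓓.pu
    hpu := 𝓓.hpu
    hΛ := 𝓓.hΛ
    tm := 𝓓.tm
    htm := 𝓓.htm }

theorem psi_upd {φ' : QA →+* C} (hφ' : ∀ r : 𝓛.R, φ' r = 𝓛.φ r) (𝓓 : Dyn C p n W) :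
    (𝓛.upd φ' hφ' 𝓓).ψ = 𝓛.ψ := RingHom.ext fun r => hφ' r

theorem pt_upd {φ' : QA →+* C} {hφ' : ∀ r : 𝓛.R, φ' r = 𝓛.φ r} {𝓓 : Dyn C p n W} {x : Fin n → C}
    (h : 𝓛.Pt x) : (𝓛.upd φ' hφ' 𝓓).Pt x := by
  have e := 𝓛.psi_upd hφ' 𝓓
  refine ⟨fun i j hij => ?_, fun i j hij hx => ?_, fun v w hv hw hvw hs => ?_⟩
  · rw [e]; exact h.r1 i j hij
  · rw [e]; exact h.r1' i j hij hx
  · rw [e]; exact h.r2 v w hv hw hvw hs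

/-- the residues of the parameters are in `K` -/
def Good (K : Set k) (φ' : QA →+* C) (𝓓 : Dyn C p n W) : Prop :=
  (∃ κ : Fin n → OO C, (∀ i, (p : C) * κ i * 𝓓.Λ i = φ' (iA (cj 1)) - 𝓓.tm i) ∧
    ∀ i, 𝓛.red (κ i) ∈ K) ∧
  ∀ (j l : Fin n) (A B : ℕ), A ≤ W → B ≤ W →
    𝓓.Λ l ^ B * (𝓓.Λ j ^ A)⁻¹ ∈ GG C p 0 le_rfl one_pos →
    (∃ τ ν : OO C, (((𝓓.Λ l ^ B * (𝓓.Λ j ^ A)⁻¹)⁻¹ : Cˣ) : C) = τ * (1 + p * ν) ∧
      (∃ f : ℕ, 0 < f ∧ τ ^ p ^ f = τ) ∧ 𝓛.red ν ∈ K) ∧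
    ∃ μO : OO C, (μO : C) = ((𝓓.Λ l ^ B * (𝓓.Λ j ^ A)⁻¹ : Cˣ) : C) ∧ 𝓛.red μO ∈ K

/-- the unit part of a pair -/
theorem pair_tame_u (κ : Fin n → OO C) {j l : Fin n} {A B : ℕ} {τ ν : OO C} {f₁ : ℕ}
    (hμτ : (((𝓛.Λ l ^ B * (𝓛.Λ j ^ A)⁻¹)⁻¹ : Cˣ) : C) = τ * (1 + p * ν)) (hf₁ : 0 < f₁)
    (hτ : τ ^ p ^ f₁ = τ) :
    ∀ (xO : Fin n → OO C) (Y : Fin n → Cˣ), (∀ i, (Y i : C) = xO i) →
      (∀ i, ‖(xO i : C)‖ = 1) → ∀ (ζ : Cˣ) (f : ℕ), 0 < f → (ζ : C) ^ p ^ f = ζ →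
      ‖((𝓛.Λ l ^ B * (𝓛.Λ j ^ A)⁻¹ * (Y l ^ B * (Y j ^ A)⁻¹) * ζ : Cˣ) : C) -
        (1 + p * (B * (κ l * ((Y l : Cˣ) : C)⁻¹) - A * (κ j * ((Y j : Cˣ) : C)⁻¹)))‖ ≤
          ‖(p : C)‖ ^ 2 →
      ∃ F e R : OO C, (F : C) = ((Y l ^ B * (Y j ^ A)⁻¹ : Cˣ) : C) ∧ F = e * (1 + p * R) ∧
        (∃ f : ℕ, 0 < f ∧ e ^ p ^ f = e) ∧
        𝓛.red R = 𝓛.red ν + (B * (𝓛.red (κ l) * (𝓛.red (xO l))⁻¹) -
          A * (𝓛.red (κ j) * (𝓛.red (xO j))⁻¹)) ∧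
        𝓛.red F = 𝓛.red (xO l) ^ B * (𝓛.red (xO j) ^ A)⁻¹ := by
  intro xO Y hY hx1 ζ f hf hζ hexp
  set μ := 𝓛.Λ l ^ B * (𝓛.Λ j ^ A)⁻¹ with hμdef
  have hp0 : (p : C) ≠ 0 := 𝓛.pC_ne
  have hredp : 𝓛.red (p : OO C) = 0 := by
    rw [𝓛.hker]
    simpa using 𝓛.hp1
  have hx0 : ∀ i, (xO i : C) ≠ 0 := fun i => norm_pos_iff.1 (by rw [hx1]; exact one_pos)
  have hred0 : ∀ i, 𝓛.red (xO i) ≠ 0 := fun i => by
    rw [Ne, 𝓛.hker, hx1]; exact lt_irrefl 1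
  -- inverses
  have hinvex : ∀ i, ∃ y : OO C, (y : C) = ((Y i : Cˣ) : C)⁻¹ ∧ 𝓛.red y = (𝓛.red (xO i))⁻¹ := by
    intro i
    refine ⟨⟨((Y i : Cˣ) : C)⁻¹, by rw [mem_OO, norm_inv, hY, hx1, inv_one]⟩, rfl, ?_⟩
    apply eq_inv_of_mul_eq_one_left
    rw [← map_mul]
    have : (⟨((Y i : Cˣ) : C)⁻¹, by rw [mem_OO, norm_inv, hY, hx1, inv_one]⟩ : OO C) * xO i = 1 := by
      apply Subtype.ext
      show ((Y i : Cˣ) : C)⁻¹ * (xO i : C) = 1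
      rw [hY]
      exact inv_mul_cancel₀ (hx0 i)
    rw [this, map_one]
  choose yi hyi hyi' using hinvex
  -- the error term
  set ρ : OO C := B * (κ l * yi l) - A * (κ j * yi j) with hρ
  have hρC : (ρ : C) = B * (κ l * ((Y l : Cˣ) : C)⁻¹) - A * (κ j * ((Y j : Cˣ) : C)⁻¹) := by
    rw [hρ]
    push_cast
    rw [hyi, hyi]
  rw [← hρC] at hexp
  obtain ⟨θ, hθ⟩ := 𝓛.divp2 hexp
  -- the root of unity
  have hζNr := Nr_of_fixed hf hζ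
  have hζ0 : (ζ : C) ≠ 0 := ζ.ne_zero
  have hζ1 : ‖(ζ : C)‖ = 1 := by
    have h1 : ‖(ζ : C)‖ ^ p ^ f = ‖(ζ : C)‖ := by rw [← norm_pow, hζ]
    have h2 : 0 < ‖(ζ : C)‖ := norm_pos_iff.2 hζ0
    refine le_antisymm (Nr_le hζNr) ?_
    by_contra hcon
    push Not at hcon
    have h3 : 1 < p ^ f := Nat.one_lt_pow hf.ne' hpf.out.one_lt
    have h4 := pow_lt_pow_right_of_lt_one₀ h2 hcon h3
    rw [h1, pow_one] at h4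
    exact lt_irrefl _ h4
  set zi : OO C := ⟨(ζ : C)⁻¹, by rw [mem_OO, norm_inv, hζ1, inv_one]⟩ with hzi
  have hzif : zi ^ p ^ f = zi := by
    apply Subtype.ext
    show ((ζ : C)⁻¹) ^ p ^ f = (ζ : C)⁻¹
    rw [inv_pow, hζ]
  set F : OO C := xO l ^ B * yi j ^ A with hF
  have hFC : (F : C) = ((Y l ^ B * (Y j ^ A)⁻¹ : Cˣ) : C) := by
    rw [hF, Units.val_mul, Units.val_pow_eq_pow_val, Units.val_inv_eq_inv_val,
      Units.val_pow_eq_pow_val, hY l, ← inv_pow]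
    push_cast
    rw [hyi]
  refine ⟨F, τ * zi, ν + ρ + p * (θ + ν * ρ + p * ν * θ), hFC, ?_, ?_, ?_, ?_⟩
  · apply Subtype.ext
    have e0 : ((p : OO C) : C) = p := by simp
    show (F : C) = (τ : C) * (ζ : C)⁻¹ * (1 + ((p : OO C) : C) * ((ν : C) + ρ +
      ((p : OO C) : C) * ((θ : C) + ν * ρ + ((p : OO C) : C) * ν * θ)))
    rw [e0]
    have e1 : ((μ * (Y l ^ B * (Y j ^ A)⁻¹) * ζ : Cˣ) : C) = 1 + p * ρ + p ^ 2 * θ := by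
      linear_combination hθ
    have e2 : (F : C) = ((μ⁻¹ : Cˣ) : C) * (ζ : C)⁻¹ * ((μ * (Y l ^ B * (Y j ^ A)⁻¹) * ζ : Cˣ) : C) := by
      rw [hFC]
      simp only [Units.val_mul, Units.val_inv_eq_inv_val]
      have hμ0 : (μ : C) ≠ 0 := μ.ne_zero
      field_simp
    rw [e2, e1, hμτ]
    ring
  · refine ⟨f₁ * f, Nat.mul_pos hf₁ hf, ?_⟩
    rw [mul_pow, fixed_mul hτ f, mul_comm f₁ f, fixed_mul hzif f₁]
  · rw [map_add, map_mul, hredp, zero_mul, add_zero, map_add, hρ, map_sub, map_mul, map_mul,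
      map_mul, map_mul, hyi', hyi', map_natCast, map_natCast]
  · rw [hF, map_mul, map_pow, map_pow, hyi', inv_pow]

/-- the tame solutions for two pairs -/
theorem tame_Tu [CharP k p] [IsAlgClosed k] (a : Fin n → k) (c c' : k) {j l j' l' : Fin n}
    {A B A' B' : ℕ} (hjl : j ≠ l) (hjl' : j' ≠ l')
    (hne : ¬ ((j' = j ∧ l' = l) ∨ (j' = l ∧ l' = j))) (hA : 0 < A) (hB : 0 < B) (hB' : 0 < B')
    (hAW : A ≤ W) (hBW : B ≤ W) (hAW' : A' ≤ W) (hBW' : B' ≤ W) :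
    ∃ T : Set (Fin n → k), T.Finite ∧ ∀ (𝓓 : Dyn C p n W) (κ : Fin n → OO C),
      (∀ i, 𝓛.red (κ i) = a i) → ∀ τ₁ ν τ₂ ν' : OO C,
      (((𝓓.Λ l ^ B * (𝓓.Λ j ^ A)⁻¹)⁻¹ : Cˣ) : C) = τ₁ * (1 + p * ν) →
      (∃ f : ℕ, 0 < f ∧ τ₁ ^ p ^ f = τ₁) → 𝓛.red ν = c →
      (((𝓓.Λ l' ^ B' * (𝓓.Λ j' ^ A')⁻¹)⁻¹ : Cˣ) : C) = τ₂ * (1 + p * ν') →
      (∃ f : ℕ, 0 < f ∧ τ₂ ^ p ^ f = τ₂) → 𝓛.red ν' = c' →
      ∀ (x : Fin n → C), 𝓛.Pt x → ∀ (xO : Fin n → OO C)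
      (Y : Fin n → Cˣ), (∀ i, (xO i : C) = x i) → (∀ i, (Y i : C) = xO i) →
      (∀ i, ‖(xO i : C)‖ = 1) →
      ∀ (ζ ζ' : Cˣ) (f f' : ℕ), 0 < f → (ζ : C) ^ p ^ f = ζ → 0 < f' → (ζ' : C) ^ p ^ f' = ζ' →
      ‖((𝓓.Λ l ^ B * (𝓓.Λ j ^ A)⁻¹ * (Y l ^ B * (Y j ^ A)⁻¹) * ζ : Cˣ) : C) -
        (1 + p * (B * (κ l * ((Y l : Cˣ) : C)⁻¹) - A * (κ j * ((Y j : Cˣ) : C)⁻¹)))‖ ≤
          ‖(p : C)‖ ^ 2 →
      ‖((𝓓.Λ l' ^ B' * (𝓓.Λ j' ^ A')⁻¹ * (Y l' ^ B' * (Y j' ^ A')⁻¹) * ζ' : Cˣ) : C) -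
        (1 + p * (B' * (κ l' * ((Y l' : Cˣ) : C)⁻¹) - A' * (κ j' * ((Y j' : Cˣ) : C)⁻¹)))‖ ≤
          ‖(p : C)‖ ^ 2 →
      (fun i => 𝓛.red (xO i)) ∈ T := by
  classical
  have hM := 𝓛.hM
  set v := vec j l A B with hvdef
  set w := vec j' l' A' B' with hwdef
  have hv : Bv M v := Bv_vec (by omega) (by omega) hjl
  have hw : Bv M w := Bv_vec (by omega) (by omega) hjl'
  have hvw : LI v w := LI_vec hjl hjl' hne hA hB hB'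
  set h := 𝓛.𝓡.h v w with hh
  choose τ vv hc hτ using fun m => 𝓛.teichO (c := 𝓛.ψO (cf h m)) (𝓛.ψ_Nr _)
  -- the polynomials
  let P₁ : MvPolynomial (Fin n × Bool) k := MvPolynomial.C c +
    ((B : MvPolynomial (Fin n × Bool) k) * (MvPolynomial.C (a l) * MvPolynomial.X (l, true)) -
    (A : MvPolynomial (Fin n × Bool) k) * (MvPolynomial.C (a j) * MvPolynomial.X (j, true)))
  let P₂ : MvPolynomial (Fin n × Bool) k := MvPolynomial.C c' +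
    ((B' : MvPolynomial (Fin n × Bool) k) * (MvPolynomial.C (a l') * MvPolynomial.X (l', true)) -
    (A' : MvPolynomial (Fin n × Bool) k) * (MvPolynomial.C (a j') * MvPolynomial.X (j', true)))
  let 𝓑 : MvPolynomial (Fin n × Bool) k := ∑ m ∈ box d,
    (MvPolynomial.C (𝓛.red (vv m)) * Mv k v ^ m.1 * Mv k w ^ m.2 +
      MvPolynomial.C (𝓛.red (𝓛.ψO (cf h m))) * Mv k v ^ m.1 * Mv k w ^ m.2 *
        ((m.1 : MvPolynomial (Fin n × Bool) k) * P₁ + (m.2 : MvPolynomial (Fin n × Bool) k) * P₂))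
  obtain ⟨U, V, r, hr, hUV⟩ := 𝓛.𝓡.hUV v w hv hw hvw
  have hχunit : ∀ r : 𝓛.R, IsUnit r → 𝓛.χ r ≠ 0 := fun r hr => (hr.map 𝓛.χ).ne_zero
  have hN0 : (N : k) ≠ 0 := by
    intro h0
    have h1 := (CharP.cast_eq_zero_iff k p N).1 h0
    have h2 := Nat.le_of_dvd 𝓛.hN h1
    have := 𝓛.b3
    omega
  have hfin := tame_fin (k := k) (p := p) 𝓛.hN hN0
    (fun i j => (𝓛.𝓡.g i false j).map (mapRingHom 𝓛.χ))
    (fun i j => Units.map (PowerSeries.map 𝓛.χ).toMonoidHom (𝓛.𝓡.L i false j))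
    (fun i j => (𝓛.𝓡.ys i false j).map (Units.map (PowerSeries.map 𝓛.χ).toMonoidHom))
    (fun i j hij => (𝓛.𝓡.fac i false j hij).map 𝓛.χ)
    (by
      intro i j hij y hy
      obtain ⟨y₀, hy₀, rfl⟩ := Multiset.mem_map.1 hy
      obtain ⟨m, hm, hu⟩ := 𝓛.𝓡.yn i false j hij y₀ hy₀
      refine ⟨m, hm, ?_⟩
      have e1 : ((Units.map (PowerSeries.map 𝓛.χ).toMonoidHom y₀ : (PowerSeries k)ˣ) :
        PowerSeries k) = PowerSeries.map 𝓛.χ (y₀ : PowerSeries 𝓛.R) := rfl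
      rw [e1, PowerSeries.coeff_map]
      exact hχunit _ hu)
    v w (fun c₁ c₂ hc => LI_mod hv hw hvw 𝓛.b6 c₁ c₂ hc)
    (h := h.map (mapRingHom 𝓛.χ)) (d := d) ((𝓛.𝓡.hBD v w hv hw hvw).map 𝓛.χ)
    (U := U.map (mapRingHom 𝓛.χ)) (V := V.map (mapRingHom 𝓛.χ)) (r := r.map 𝓛.χ)
    (by
      obtain ⟨i, hi⟩ := hr
      intro h0
      have := congrArg (fun f => coeff f i) h0
      simp only [coeff_map, coeff_zero] at this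
      exact hχunit _ hi this)
    (by
      have := congrArg (Polynomial.map (mapRingHom 𝓛.χ)) hUV
      rw [Polynomial.map_add, Polynomial.map_mul, Polynomial.map_mul, Polynomial.map_mul,
        ← derivative_map, Polynomial.map_X, Polynomial.map_C] at this
      exact this) 𝓑
  refine ⟨_, hfin, ?_⟩
  intro 𝓓 κ hκ τ₁ ν τ₂ ν' hμτ ⟨f₁, hf₁, hτ₁⟩ hνc hμτ' ⟨f₂, hf₂, hτ₂⟩ hνc' x hx xO Y hxO hY hx1 ζ ζ'
    f f' hf hζ hf' hζ' hexp hexp'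
  obtain ⟨F, e, R, hF, hFe, he, hR, hFr⟩ := (𝓛.upd 𝓛.φ (fun _ => rfl) 𝓓).pair_tame_u κ hμτ hf₁ hτ₁ xO Y hY hx1 ζ f hf
    hζ hexp
  obtain ⟨F', e', R', hF', hFe', he', hR', hFr'⟩ := (𝓛.upd 𝓛.φ (fun _ => rfl) 𝓓).pair_tame_u κ hμτ' hf₂ hτ₂ xO Y hY hx1
    ζ' f' hf' hζ' hexp'
  change 𝓛.red R = 𝓛.red ν + (B * (𝓛.red (κ l) * (𝓛.red (xO l))⁻¹) -
          A * (𝓛.red (κ j) * (𝓛.red (xO j))⁻¹)) at hR
  change 𝓛.red R' = 𝓛.red ν' + (B' * (𝓛.red (κ l') * (𝓛.red (xO l'))⁻¹) -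
          A' * (𝓛.red (κ j') * (𝓛.red (xO j'))⁻¹)) at hR'
  rw [hνc, hκ, hκ] at hR
  rw [hνc', hκ, hκ] at hR'
  change 𝓛.red F = 𝓛.red (xO l) ^ B * (𝓛.red (xO j) ^ A)⁻¹ at hFr
  change 𝓛.red F' = 𝓛.red (xO l') ^ B' * (𝓛.red (xO j') ^ A')⁻¹ at hFr'
  have hx0 : ∀ i, x i ≠ 0 := fun i => by
    rw [← hxO]; exact norm_pos_iff.1 (by rw [hx1]; exact one_pos)
  set xb : Fin n → k := fun i => 𝓛.red (xO i) with hxb
  have hxb0 : ∀ i, xb i ≠ 0 := fun i => by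
    show 𝓛.red (xO i) ≠ 0
    rw [Ne, 𝓛.hker, hx1]; exact lt_irrefl 1
  have hFv : 𝓛.red F = ∏ i, xb i ^ v i := by
    rw [hvdef, prod_vec xb hjl (hxb0 j), hFr]
  have hFw : 𝓛.red F' = ∏ i, xb i ^ w i := by
    rw [hwdef, prod_vec xb hjl' (hxb0 j'), hFr']
  have hFC : (F : C) = ∏ i, x i ^ v i := by
    rw [hvdef, prod_vec x hjl (hx0 j), hF, Units.val_mul, Units.val_pow_eq_pow_val,
      Units.val_inv_eq_inv_val, Units.val_pow_eq_pow_val, hY, hY, hxO, hxO]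
  have hFC' : (F' : C) = ∏ i, x i ^ w i := by
    rw [hwdef, prod_vec x hjl' (hx0 j'), hF', Units.val_mul, Units.val_pow_eq_pow_val,
      Units.val_inv_eq_inv_val, Units.val_pow_eq_pow_val, hY, hY, hxO, hxO]
  have halg : algebraMap k k = RingHom.id k := rfl
  have hpush : ∀ (P Q : OO C) (q : 𝓛.R[X][X]), E2 𝓛.ψ (P : C) (Q : C) q = 0 →
      E2 (algebraMap k k) (𝓛.red P) (𝓛.red Q) (q.map (mapRingHom 𝓛.χ)) = 0 := by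
    intro P Q q h0
    have h1 : E2 𝓛.ψO P Q q = 0 := by
      apply Subtype.ext
      have h2 := map_E2 (OO C).subtype 𝓛.ψO P Q q
      exact h2.trans h0
    have h2 := congrArg 𝓛.red h1
    rw [map_zero, map_E2] at h2
    rw [E2_map, halg, RingHom.id_comp]
    exact h2
  refine ⟨hxb0, ?_, ?_, ?_⟩
  · intro i j hij
    exact hpush _ _ _ (by rw [hxO, hxO]; exact hx.r1 i j hij)
  · rw [← hFv, ← hFw]
    refine hpush _ _ _ ?_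
    rw [hFC, hFC']
    exact hx.r2 v w hv hw hvw (fun i _ => hx0 i)
  · have hrel : ∑ m ∈ box d, 𝓛.ψO (cf h m) * F ^ m.1 * F' ^ m.2 = 0 := by
      apply Subtype.ext
      have h1 := 𝓛.relsum hx hv hw hvw (fun i _ => hx0 i) hFC hFC'
      have h2 : (((∑ m ∈ box d, 𝓛.ψO (cf h m) * F ^ m.1 * F' ^ m.2 : OO C)) : C) =
          ∑ m ∈ box d, ((𝓛.ψO (cf h m) : OO C) : C) * (F : C) ^ m.1 * (F' : C) ^ m.2 := by
        push_cast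
        rfl
      rw [h2]
      exact h1
    have h1 := tame_eq2 𝓛.red 𝓛.pO_ne (fun m => 𝓛.ψO (cf h m)) τ vv hc hτ he he' hFe hFe' hrel
    simp only [cf_map]
    rw [← hFv, ← hFw]
    refine h1.trans ?_
    congr 1
    show _ = MvPolynomial.aeval (xx xb) (∑ m ∈ box d,
      (MvPolynomial.C (𝓛.red (vv m)) * Mv k v ^ m.1 * Mv k w ^ m.2 +
        MvPolynomial.C (𝓛.red (𝓛.ψO (cf h m))) * Mv k v ^ m.1 * Mv k w ^ m.2 *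
        ((m.1 : MvPolynomial (Fin n × Bool) k) * P₁ + (m.2 : MvPolynomial (Fin n × Bool) k) * P₂)))
    rw [map_sum]
    refine Finset.sum_congr rfl fun m _ => ?_
    have e1 : MvPolynomial.aeval (xx xb) P₁ = 𝓛.red R := by
      rw [hR]
      show MvPolynomial.aeval (xx xb) (MvPolynomial.C c +
        ((B : MvPolynomial (Fin n × Bool) k) * (MvPolynomial.C (a l) * MvPolynomial.X (l, true)) -
        (A : MvPolynomial (Fin n × Bool) k) * (MvPolynomial.C (a j) * MvPolynomial.X (j, true)))) = _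
      simp only [map_add, map_sub, map_mul, map_natCast, MvPolynomial.aeval_X,
        MvPolynomial.aeval_C]
      simp [xx, hxb]
    have e2 : MvPolynomial.aeval (xx xb) P₂ = 𝓛.red R' := by
      rw [hR']
      show MvPolynomial.aeval (xx xb) (MvPolynomial.C c' +
        ((B' : MvPolynomial (Fin n × Bool) k) * (MvPolynomial.C (a l') * MvPolynomial.X (l', true)) -
        (A' : MvPolynomial (Fin n × Bool) k) * (MvPolynomial.C (a j') * MvPolynomial.X (j', true)))) = _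
      simp only [map_add, map_sub, map_mul, map_natCast, MvPolynomial.aeval_X,
        MvPolynomial.aeval_C]
      simp [xx, hxb]
    rw [map_add, map_mul, map_mul, map_mul, map_mul, map_mul, map_add, map_mul, map_mul,
      map_natCast, map_natCast, map_pow, map_pow, aeval_Mv hxb0, aeval_Mv hxb0, e1, e2,
      MvPolynomial.aeval_C, MvPolynomial.aeval_C, ← hFv, ← hFw, halg]
    rfl

/-- the order of the tame part is bounded when the residues are in a finite set -/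
theorem order_bound_u {S K : Set k} (hS : S.Finite) (hK : K.Finite) : ∃ G : ℕ,
    ∀ (φ' : QA →+* C) (hφ' : ∀ r : 𝓛.R, φ' r = 𝓛.φ r) (𝓓 : Dyn C p n W) (κ : Fin n → OO C)
    (Y : Fin n → Cˣ) (X : Fin n → QA) (j l : Fin n) (A B g' s : ℕ) (ζ' ε : Cˣ),
    PI (𝓛.upd φ' hφ' 𝓓) κ Y X j l A B g' s ζ' ε →
    (∃ μO : OO C, (μO : C) = ((𝓓.Λ l ^ B * (𝓓.Λ j ^ A)⁻¹ : Cˣ) : C) ∧ 𝓛.red μO ∈ K) →
    ∀ uj ul : OO C, (uj : C) = Y j → (ul : C) = Y l →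
    ‖((Y j : Cˣ) : C)‖ = 1 → ‖((Y l : Cˣ) : C)‖ = 1 → 𝓛.red uj ∈ S → 𝓛.red ul ∈ S → g' ≤ G := by
  classical
  let f : k × k × k × Fin (W + 1) × Fin (W + 1) → ℕ := fun q =>
    orderOf (q.1 ^ (q.2.2.2.1 : ℕ) * (q.2.2.1 * q.2.1 ^ (q.2.2.2.2 : ℕ))⁻¹)
  have hfin : (f '' (S ×ˢ (S ×ˢ (K ×ˢ Set.univ)))).Finite :=
    (hS.prod (hS.prod (hK.prod (Set.finite_univ)))).image f
  obtain ⟨G, hG⟩ := hfin.bddAbove
  refine ⟨G, ?_⟩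
  intro φ' hφ' 𝓓 κ Y X j l A B g' s ζ' ε hPI ⟨μO, hμO, hμK⟩ uj ul huj hul hYj hYl hSj hSl
  have h1 : ‖(ζ' : C)‖ ^ g' = 1 := by rw [← norm_pow, hPI.hζ.pow_eq_one, norm_one]
  have hζn : ‖(ζ' : C)‖ = 1 := (pow_eq_one_iff_of_nonneg (norm_nonneg _) hPI.hg.ne').1 h1
  set Z : OO C := ⟨(ζ' : C), hζn.le⟩ with hZ
  have hord : orderOf (𝓛.red Z) = g' := by
    refine IsPrimitiveRoot.eq_orderOf ?_ |>.symm
    refine ⟨?_, fun m hm => ?_⟩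
    · rw [← map_pow]
      have : Z ^ g' = 1 := Subtype.ext hPI.hζ.pow_eq_one
      rw [this, map_one]
    · apply hPI.hζ.dvd_of_pow_eq_one
      rw [← map_pow, ← sub_eq_zero, ← map_one 𝓛.red, ← map_sub, 𝓛.hker] at hm
      have hm' : ‖(ζ' : C) ^ m - 1‖ < 1 := hm
      refine tame_eq_one (m := g') ?_ ?_ hm'
      · have hco : IsCoprime (g' : ℤ) (p : ℤ) := Nat.isCoprime_iff_coprime.2 hPI.hcop
        obtain ⟨u, v, huv⟩ := hco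
        have h2 : (u : C) * (g' : C) - 1 = -(v * p) := by
          have := congrArg (Int.cast : ℤ → C) huv
          push_cast at this
          linear_combination this
        have h3 : ‖(u : C) * (g' : C)‖ = 1 := by
          refine neq_one (y := 1) ?_ norm_one
          rw [h2, norm_neg]
          exact (nmul_le (nint v) le_rfl).trans_lt 𝓛.hp1
        rw [norm_mul] at h3
        have h4 := nint (C := C) u
        have h5 := nnat (C := C) g'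
        have h6 := norm_nonneg (u : C)
        have h7 := norm_nonneg (g' : C)
        nlinarith
      · rw [← pow_mul, mul_comm, pow_mul, hPI.hζ.pow_eq_one, one_pow]
  set μ : Cˣ := 𝓓.Λ l ^ B * (𝓓.Λ j ^ A)⁻¹ with hμ
  have hμn : ‖(μ : C)‖ = 1 := GG_norm hPI.hμ
  have hclose := hPI.close hYj hYl
  have hεlt : ‖(ε : C) - 1‖ < 1 := ppow_root_lt 𝓛.hp1 hPI.hε.pow_eq_one
  have hclose2 : ‖((μ * (Y l ^ B * (Y j ^ A)⁻¹) * ζ' : Cˣ) : C) - 1‖ < 1 := by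
    have e1 : ((μ * (Y l ^ B * (Y j ^ A)⁻¹) * ζ' : Cˣ) : C) - 1 =
        (((μ * (Y l ^ B * (Y j ^ A)⁻¹) * (ζ' * ε) : Cˣ) : C) - 1) -
        ((μ * (Y l ^ B * (Y j ^ A)⁻¹) * ζ' : Cˣ) : C) * ((ε : C) - 1) := by
      simp only [Units.val_mul]; ring
    rw [e1]
    refine nsub_lt (hclose.trans_lt 𝓛.hp1) ?_
    rw [norm_mul]
    have e2 : ‖((μ * (Y l ^ B * (Y j ^ A)⁻¹) * ζ' : Cˣ) : C)‖ = 1 := by
      simp only [Units.val_mul, Units.val_inv_eq_inv_val, Units.val_pow_eq_pow_val, norm_mul,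
        norm_inv, norm_pow, hYj, hYl, hμn, hζn, one_pow, inv_one, mul_one]
    rw [e2, one_mul]
    exact hεlt
  have hrel : 𝓛.red (μO * ul ^ B * Z) = 𝓛.red (uj ^ A) := by
    apply 𝓛.red_congr
    show ‖(μO : C) * (ul : C) ^ B * (ζ' : C) - (uj : C) ^ A‖ < 1
    rw [hul, huj, hμO]
    have hY0 : ((Y j : Cˣ) : C) ≠ 0 := (Y j).ne_zero
    have e1 : (μ : C) * (Y l : C) ^ B * (ζ' : C) - (Y j : C) ^ A =
        (Y j : C) ^ A * (((μ * (Y l ^ B * (Y j ^ A)⁻¹) * ζ' : Cˣ) : C) - 1) := by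
      simp only [Units.val_mul, Units.val_inv_eq_inv_val, Units.val_pow_eq_pow_val]
      field_simp
    rw [e1, norm_mul, norm_pow, hYj, one_pow, one_mul]
    exact hclose2
  have hne : ∀ x : OO C, ‖(x : C)‖ = 1 → 𝓛.red x ≠ 0 := by
    intro x hx
    rw [Ne, 𝓛.hker, hx]
    exact lt_irrefl 1
  have hval : 𝓛.red Z = 𝓛.red uj ^ A * (𝓛.red μO * 𝓛.red ul ^ B)⁻¹ := by
    rw [map_mul, map_mul, map_pow, map_pow] at hrel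
    rw [← hrel]
    have h1 := hne μO (by rw [hμO]; exact hμn)
    have h2 := hne ul (by rw [hul]; exact hYl)
    field_simp
  rw [← hord, hval]
  apply hG
  have hA := hPI.hAW
  have hB := hPI.hBW
  exact ⟨(𝓛.red uj, 𝓛.red ul, 𝓛.red μO, ⟨A, by omega⟩, ⟨B, by omega⟩), ⟨hSj, hSl, hμK, trivial⟩, rfl⟩

/-- The local theorem. -/
theorem core_u [CharP k p] [IsAlgClosed k] {K : Set k} (hK : K.Finite) : ∃ G : ℕ,
    ∀ φ' : QA →+* C, (∀ r : 𝓛.R, φ' r = 𝓛.φ r) → ∀ 𝓓 : Dyn C p n W, 𝓛.Good K φ' 𝓓 →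
    ∀ (X : Fin n → QA) (x : Fin n → C), 𝓛.Pt x → (∀ i, φ' (X i) = 𝓓.Λ i * x i + 𝓓.tm i) → ∀ (r : ℕ) (cls : Fin n → Option (Fin r)),
    r + 2 ≤ n → (∀ i, cls i = none → ‖φ' (X i)‖ ≤ 1) →
    (∀ j l c, j ≠ l → cls j = some c → cls l = some c → ∃ (w w' : ℍ) (a b c' d' : ℤ),
      0 < a * d' - b * c' ∧ (w' : ℂ) * (c' * w + d') = a * w + b ∧ rA (X j) = jj w ∧
      rA (X l) = jj w') → ∃ j l : Fin n, j ≠ l ∧ (∃ c, cls j = some c ∧ cls l = some c) ∧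
      ∃ N' : ℕ, 0 < N' ∧ N' ≤ G ∧ PsiE ιZ (mP N') (mD N') (rA (X j)) (rA (X l)) = 0 := by
  classical
  -- the tame sets
  let J := (Fin n × Fin n × Fin (W + 1) × Fin (W + 1)) × (Fin n × Fin n × Fin (W + 1) × Fin (W + 1))
  let L := k × k × (Fin n → k)
  have hT : ∀ q : J × L, ∃ T : Set (Fin n → k), T.Finite ∧ (q.1.1.1 ≠ q.1.1.2.1 →
      q.1.2.1 ≠ q.1.2.2.1 →
      ¬ ((q.1.2.1 = q.1.1.1 ∧ q.1.2.2.1 = q.1.1.2.1) ∨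
        (q.1.2.1 = q.1.1.2.1 ∧ q.1.2.2.1 = q.1.1.1)) →
      0 < (q.1.1.2.2.1 : ℕ) → 0 < (q.1.1.2.2.2 : ℕ) → 0 < (q.1.2.2.2.2 : ℕ) →
      ∀ (𝓓 : Dyn C p n W) (κ : Fin n → OO C),
      (∀ i, 𝓛.red (κ i) = q.2.2.2 i) → ∀ τ₁ ν τ₂ ν' : OO C,
      (((𝓓.Λ q.1.1.2.1 ^ (q.1.1.2.2.2 : ℕ) * (𝓓.Λ q.1.1.1 ^ (q.1.1.2.2.1 : ℕ))⁻¹)⁻¹ : Cˣ) : C) =
        τ₁ * (1 + p * ν) →
      (∃ f : ℕ, 0 < f ∧ τ₁ ^ p ^ f = τ₁) → 𝓛.red ν = q.2.1 →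
      (((𝓓.Λ q.1.2.2.1 ^ (q.1.2.2.2.2 : ℕ) * (𝓓.Λ q.1.2.1 ^ (q.1.2.2.2.1 : ℕ))⁻¹)⁻¹ : Cˣ) : C) =
        τ₂ * (1 + p * ν') →
      (∃ f : ℕ, 0 < f ∧ τ₂ ^ p ^ f = τ₂) → 𝓛.red ν' = q.2.2.1 →
      ∀ (x : Fin n → C), 𝓛.Pt x → ∀ (xO : Fin n → OO C)
      (Y : Fin n → Cˣ), (∀ i, (xO i : C) = x i) → (∀ i, (Y i : C) = xO i) →
      (∀ i, ‖(xO i : C)‖ = 1) →
      ∀ (ζ ζ' : Cˣ) (f f' : ℕ), 0 < f → (ζ : C) ^ p ^ f = ζ → 0 < f' → (ζ' : C) ^ p ^ f' = ζ' →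
      ‖((𝓓.Λ q.1.1.2.1 ^ (q.1.1.2.2.2 : ℕ) * (𝓓.Λ q.1.1.1 ^ (q.1.1.2.2.1 : ℕ))⁻¹ *
        (Y q.1.1.2.1 ^ (q.1.1.2.2.2 : ℕ) * (Y q.1.1.1 ^ (q.1.1.2.2.1 : ℕ))⁻¹) * ζ : Cˣ) : C) -
        (1 + p * ((q.1.1.2.2.2 : ℕ) * (κ q.1.1.2.1 * ((Y q.1.1.2.1 : Cˣ) : C)⁻¹) -
          (q.1.1.2.2.1 : ℕ) * (κ q.1.1.1 * ((Y q.1.1.1 : Cˣ) : C)⁻¹)))‖ ≤ ‖(p : C)‖ ^ 2 →
      ‖((𝓓.Λ q.1.2.2.1 ^ (q.1.2.2.2.2 : ℕ) * (𝓓.Λ q.1.2.1 ^ (q.1.2.2.2.1 : ℕ))⁻¹ *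
        (Y q.1.2.2.1 ^ (q.1.2.2.2.2 : ℕ) * (Y q.1.2.1 ^ (q.1.2.2.2.1 : ℕ))⁻¹) * ζ' : Cˣ) : C) -
        (1 + p * ((q.1.2.2.2.2 : ℕ) * (κ q.1.2.2.1 * ((Y q.1.2.2.1 : Cˣ) : C)⁻¹) -
          (q.1.2.2.2.1 : ℕ) * (κ q.1.2.1 * ((Y q.1.2.1 : Cˣ) : C)⁻¹)))‖ ≤ ‖(p : C)‖ ^ 2 →
      (fun i => 𝓛.red (xO i)) ∈ T) := by
    rintro ⟨⟨⟨j, l, A, B⟩, ⟨j', l', A', B'⟩⟩, c, c', a⟩
    by_cases h : j ≠ l ∧ j' ≠ l' ∧ ¬ ((j' = j ∧ l' = l) ∨ (j' = l ∧ l' = j)) ∧ 0 < (A : ℕ) ∧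
        0 < (B : ℕ) ∧ 0 < (B' : ℕ)
    · obtain ⟨h1, h2, h3, h4, h5, h6⟩ := h
      obtain ⟨T, hT, hT'⟩ := 𝓛.tame_Tu a c c' h1 h2 h3 h4 h5 h6 (Nat.lt_succ_iff.1 A.2)
        (Nat.lt_succ_iff.1 B.2) (Nat.lt_succ_iff.1 A'.2) (Nat.lt_succ_iff.1 B'.2)
      exact ⟨T, hT, fun _ _ _ _ _ _ => hT'⟩
    · exact ⟨∅, Set.finite_empty, fun h1 h2 h3 h4 h5 h6 =>
        absurd ⟨h1, h2, h3, h4, h5, h6⟩ h⟩
  choose T hTfin hTmem using hT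
  obtain ⟨S₀, hS₀, hS₀x⟩ := 𝓛.resid_bad
  set KK : Set L := K ×ˢ (K ×ˢ (Set.pi Set.univ fun _ => K)) with hKK
  have hKKf : KK.Finite := hK.prod (hK.prod (Set.Finite.pi fun _ => hK))
  set S : Set k := S₀ ∪ ⋃ q : J × Fin n, ⋃ c ∈ KK, (fun t : Fin n → k => t q.2) '' (T (q.1, c))
    with hS
  have hSfin : S.Finite := by
    refine hS₀.union (Set.finite_iUnion fun q => ?_)
    exact Set.Finite.biUnion hKKf fun c _ => (hTfin (q.1, c)).image _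
  obtain ⟨G₁, hG₁⟩ := 𝓛.order_bound_u hSfin hK
  refine ⟨W * W * (G₁ * p ^ 2) ^ 2, ?_⟩
  intro φ' hφ' 𝓓 hgood X x hx₀ hX r cls hr hcm hZ
  obtain ⟨⟨κ, hκ, hκK⟩, hgμ⟩ := hgood
  have hx : (𝓛.upd φ' hφ' 𝓓).Pt x := 𝓛.pt_upd hx₀
  -- the units
  have hYex : ∀ i, ∃ y : Cˣ, ‖x i‖ = 1 → (y : C) = x i := by
    intro i
    by_cases h : ‖x i‖ = 1
    · exact ⟨Units.mk0 (x i) (norm_pos_iff.1 (by rw [h]; exact one_pos)), fun _ => rfl⟩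
    · exact ⟨1, fun h' => absurd h' h⟩
  choose Y hY using hYex
  have hYn : ∀ i, ‖x i‖ = 1 → ‖((Y i : Cˣ) : C)‖ = 1 := fun i hi => by rw [hY i hi]; exact hi
  have hgood1 : ∀ i, ‖x i‖ = 1 → 1 < ‖φ' (X i)‖ := fun i hi => (𝓛.upd φ' hφ' 𝓓).X_gt (hX i) hi
  have hnone : ∀ i, ‖x i‖ = 1 → cls i ≠ none := by
    intro i hi h
    exact absurd (hgood1 i hi) (not_lt.2 (hcm i h))
  -- information on pairs
  have hinfo : ∀ j l, j ≠ l → ‖x j‖ = 1 → ‖x l‖ = 1 → (∃ c, cls j = some c ∧ cls l = some c) →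
      ∃ (A B g' s : ℕ) (ζ' ε : Cˣ), PI (𝓛.upd φ' hφ' 𝓓) κ Y X j l A B g' s ζ' ε := by
    intro j l hjl hj hl ⟨c, hcj, hcl⟩
    obtain ⟨w, w', a, b, c', d', hdet, hrel, hw, hw'⟩ := hZ _ _ _ hjl hcj hcl
    obtain ⟨A, B, g', s, ζ', ε, h1, h2, h3, h4, h5, h6, h7, h8, h9, h10, h11⟩ :=
      pair_info2 φ' 𝓛.hp0 𝓛.hp1 𝓓.hpu 𝓓.he (𝓓.hw j).1 (𝓓.hw l).1 (𝓓.hΛ j) (𝓓.hΛ l)
        (hκ j) (hκ l) (hYn j hj) (hYn l hl) (by rw [hX, hY j hj]) (by rw [hX, hY l hl])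
        hdet hrel hw hw'
    refine ⟨A, B, g', s, ζ', ε, h1, h2, ?_, ?_, h5, h6, h7, h8, h9, h10, h11⟩
    · have h12 : A ∣ B * 𝓓.w l := ⟨_, h4⟩
      exact (Nat.le_of_dvd (𝓓.hw l).1 (h3.dvd_of_dvd_mul_left h12)).trans (𝓓.hw l).2
    · have h12 : B ∣ A * 𝓓.w j := ⟨_, h4.symm⟩
      exact (Nat.le_of_dvd (𝓓.hw j).1 (h3.symm.dvd_of_dvd_mul_left h12)).trans (𝓓.hw j).2
  -- from the tame bound to the conclusion
  have hfin : ∀ j l, j ≠ l → (∃ c, cls j = some c ∧ cls l = some c) →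
      ∀ (hj : ‖x j‖ = 1) (hl : ‖x l‖ = 1),
      𝓛.red ⟨x j, hj.le⟩ ∈ S → 𝓛.red ⟨x l, hl.le⟩ ∈ S →
      ∀ (A B g' s : ℕ) (ζ' ε : Cˣ), PI (𝓛.upd φ' hφ' 𝓓) κ Y X j l A B g' s ζ' ε → s ≤ 2 →
      ∃ j l : Fin n, j ≠ l ∧ (∃ c, cls j = some c ∧ cls l = some c) ∧
        ∃ N' : ℕ, 0 < N' ∧ N' ≤ W * W * (G₁ * p ^ 2) ^ 2 ∧
        PsiE ιZ (mP N') (mD N') (rA (X j)) (rA (X l)) = 0 := by
    intro j l hjl hcl hj hl hSj hSl A B g' s ζ' ε h hs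
    have h1 := hG₁ φ' hφ' 𝓓 κ Y X j l A B g' s ζ' ε h (hgμ j l A B h.hAW h.hBW h.hμ).2 ⟨x j, hj.le⟩
      ⟨x l, hl.le⟩ (hY j hj).symm (hY l hl).symm (hYn j hj) (hYn l hl) hSj hSl
    refine ⟨j, l, hjl, hcl, A * B * (g' * p ^ s) ^ 2, ?_, ?_, h.hrel⟩
    · have h2 := hpf.out.pos
      have h3 := h.hA
      have h4 := h.hB
      have h5 := h.hg
      positivity
    · exact Nat.mul_le_mul (Nat.mul_le_mul h.hAW h.hBW) (Nat.pow_le_pow_left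
        (Nat.mul_le_mul h1 (Nat.pow_le_pow_right hpf.out.pos hs)) 2)
  -- the combinatorics
  by_cases hall : ∀ i, ‖x i‖ = 1
  · obtain ⟨j, -, l, -, hjl, hc⟩ := coll cls Finset.univ (by simp; omega)
      (fun x _ => hnone x (hall x))
    obtain ⟨j', hj', l', hl', hjl', hc'⟩ := coll cls (Finset.univ.erase l)
      (by rw [Finset.card_erase_of_mem (Finset.mem_univ l)]; simp; omega)
      (fun x _ => hnone x (hall x))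
    have h1 := Finset.ne_of_mem_erase hj'
    have h2 := Finset.ne_of_mem_erase hl'
    have hne : ¬ ((j' = j ∧ l' = l) ∨ (j' = l ∧ l' = j)) := by
      rintro (⟨-, h⟩ | ⟨h, -⟩)
      · exact h2 h
      · exact h1 h
    obtain ⟨A, B, g₁, s₁, ζ₁, ε₁, hP₁⟩ := hinfo j l hjl (hall j) (hall l) hc
    obtain ⟨A', B', g₂, s₂, ζ₂, ε₂, hP₂⟩ := hinfo j' l' hjl' (hall j') (hall l') hc'
    obtain ⟨rfl, rfl⟩ := (𝓛.upd φ' hφ' 𝓓).no_wild2 hx (hY j (hall j)) (hY l (hall l)) (hY j' (hall j'))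
      (hY l' (hall l')) (hall j) (hall l) (hall j') (hall l') hjl hjl' hne hP₁ hP₂
    have hε₁ : ε₁ = 1 := Units.ext (by
      have := hP₁.hε.pow_eq_one
      simpa using this)
    have hε₂ : ε₂ = 1 := Units.ext (by
      have := hP₂.hε.pow_eq_one
      simpa using this)
    obtain ⟨f₁, hf₁, hff₁⟩ := fixed_of_pow_eq_one (p := p) hP₁.hcop hP₁.hζ.pow_eq_one
    obtain ⟨f₂, hf₂, hff₂⟩ := fixed_of_pow_eq_one (p := p) hP₂.hcop hP₂.hζ.pow_eq_one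
    have e₁ := hP₁.hexp
    have e₂ := hP₂.hexp
    rw [hε₁, mul_one] at e₁
    rw [hε₂, mul_one] at e₂
    obtain ⟨⟨τ₁, ν₁, hμ₁, hτ₁, hν₁⟩, -⟩ := hgμ j l A B hP₁.hAW hP₁.hBW hP₁.hμ
    obtain ⟨⟨τ₂, ν₂, hμ₂, hτ₂, hν₂⟩, -⟩ := hgμ j' l' A' B' hP₂.hAW hP₂.hBW hP₂.hμ
    have hTm := hTmem (((j, l, ⟨A, Nat.lt_succ_of_le hP₁.hAW⟩, ⟨B, Nat.lt_succ_of_le hP₁.hBW⟩),
      (j', l', ⟨A', Nat.lt_succ_of_le hP₂.hAW⟩, ⟨B', Nat.lt_succ_of_le hP₂.hBW⟩)),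
      (𝓛.red ν₁, 𝓛.red ν₂, fun i => 𝓛.red (κ i)))
      hjl hjl' hne hP₁.hA hP₁.hB hP₂.hB 𝓓 κ (fun _ => rfl) τ₁ ν₁ τ₂ ν₂ hμ₁ hτ₁ rfl hμ₂ hτ₂ rfl x hx₀
      (fun i => ⟨x i, (hall i).le⟩) Y
      (fun i => rfl) (fun i => hY i (hall i)) hall ζ₁ ζ₂ f₁ f₂ hf₁ hff₁ hf₂ hff₂ e₁ e₂
    have hmemS : ∀ i, 𝓛.red ⟨x i, (hall i).le⟩ ∈ S := by
      intro i
      right
      rw [Set.mem_iUnion]
      refine ⟨(((j, l, ⟨A, Nat.lt_succ_of_le hP₁.hAW⟩, ⟨B, Nat.lt_succ_of_le hP₁.hBW⟩),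
        (j', l', ⟨A', Nat.lt_succ_of_le hP₂.hAW⟩, ⟨B', Nat.lt_succ_of_le hP₂.hBW⟩)), i), ?_⟩
      rw [Set.mem_iUnion₂]
      exact ⟨_, ⟨hν₁, hν₂, fun i _ => hκK i⟩, _, hTm, rfl⟩
    exact hfin j l hjl hc (hall j) (hall l) (hmemS j) (hmemS l) A B g₁ 0 ζ₁ ε₁ hP₁ (by norm_num)
  · push Not at hall
    obtain ⟨a, ha⟩ := hall
    have hg : ∀ j, j ≠ a → ‖x j‖ = 1 := fun j hj =>
      ((𝓛.upd φ' hφ' 𝓓).one_bad hx hj).resolve_right ha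
    obtain ⟨s, z, e, hz, hC, heX, hn, hs, hroot⟩ := (𝓛.upd φ' hφ' 𝓓).bad_data hx ha
    have hmemS : ∀ i (hi : ‖x i‖ = 1), i ≠ a → 𝓛.red ⟨x i, hi.le⟩ ∈ S := by
      intro i hi hia
      left
      exact hS₀x x hx₀ a ha i hia _ rfl
    obtain ⟨j, hj, l, hl, hjl, hc⟩ := coll cls (Finset.univ.erase a)
      (by rw [Finset.card_erase_of_mem (Finset.mem_univ a)]; simp; omega)
      (fun x hx => hnone x (hg x (Finset.ne_of_mem_erase hx)))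
    have hja := Finset.ne_of_mem_erase hj
    have hla := Finset.ne_of_mem_erase hl
    obtain ⟨A, B, g₁, s₁, ζ₁, ε₁, hP₁⟩ := hinfo j l hjl (hg j hja) (hg l hla) hc
    have hG := hP₁.mem_GG (hYn j (hg j hja)) (hYn l (hg l hla))
    refine hfin j l hjl hc (hg j hja) (hg l hla) (hmemS j (hg j hja) hja)
      (hmemS l (hg l hla) hla) A B g₁ s₁ ζ₁ ε₁ hP₁ ?_
    obtain ⟨y, hy, hxy⟩ := hroot j hja
    obtain ⟨y', hy', hxy'⟩ := hroot l hla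
    by_cases hsmall : ‖z‖ ^ N ≤ ‖(p : C)‖
    · by_contra hs₁
      obtain ⟨t, rfl⟩ : ∃ t, s₁ = t + 1 := ⟨s₁ - 1, by omega⟩
      exact (𝓛.upd φ' hφ' 𝓓).no_wild_cm (Y := Y) (j := j) (l := l) hz hC heX hn hsmall
        (by rw [hY j (hg j hja)]; exact hxy) (by rw [hY l (hg l hla)]; exact hxy') hP₁.hε hG
    · push Not at hsmall
      have hcls : cls a ≠ none := by
        intro hcls
        have h1 := hcm a hcls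
        have h2 : ‖(p : C)‖ < ‖x a‖ := by
          rcases hs with ⟨-, -, h⟩ | ⟨h, -, -⟩
          · rw [← h, norm_pow]; exact hsmall
          · exact 𝓛.hp1.trans h
        rw [(𝓛.upd φ' hφ' 𝓓).X_norm (hX a) h2] at h1
        have h3 := (𝓛.upd φ' hφ' 𝓓).Lam_inv a
        have h4 : 0 < ‖(((𝓛.upd φ' hφ' 𝓓).Λ a : Cˣ) : C)‖ := norm_pos_iff.2 ((𝓛.upd φ' hφ' 𝓓).Λ a).ne_zero
        rw [inv_le_iff_one_le_mul₀ h4] at h3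
        nlinarith
      have hnone' : ∀ x, cls x ≠ none := by
        intro i
        by_cases hi : i = a
        · rw [hi]; exact hcls
        · exact hnone i (hg i hi)
      obtain ⟨j', hj', l', hl', hjl', hc'⟩ := coll cls (Finset.univ.erase l)
        (by rw [Finset.card_erase_of_mem (Finset.mem_univ l)]; simp; omega)
        (fun x _ => hnone' x)
      have h1 := Finset.ne_of_mem_erase hj'
      have h2 := Finset.ne_of_mem_erase hl'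
      have hexc : ∀ m, m ≠ a → (∃ c, cls m = some c ∧ cls a = some c) → s₁ ≤ 2 := by
        intro m hma ⟨c, hcm', hca⟩
        by_contra hs₁
        obtain ⟨t, rfl⟩ : ∃ t, s₁ = t + 1 := ⟨s₁ - 1, by omega⟩
        obtain ⟨w, w', a', b', c', d', hdet, hrel, hw, hw'⟩ := hZ _ _ _ hma hcm' hca
        obtain ⟨y'', hy'', hxy''⟩ := hroot m hma
        have := (𝓛.upd φ' hφ' 𝓓).exc_case hx hX hz hC heX hn hs hsmall hja hla hma hjl hy hy' hxy hxy' hxy''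
          (hY j (hg j hja)) (hY l (hg l hla)) (hY m (hg m hma)) hP₁.hA hP₁.hB hP₁.hAW hP₁.hBW
          hP₁.hε hG hdet hrel hw hw'
        omega
      by_cases hj'a : j' = a
      · subst hj'a
        obtain ⟨c, hc1, hc2⟩ := hc'
        exact hexc l' hjl'.symm ⟨c, hc2, hc1⟩
      · by_cases hl'a : l' = a
        · subst hl'a
          obtain ⟨c, hc1, hc2⟩ := hc'
          exact hexc j' hjl' ⟨c, hc1, hc2⟩
        · obtain ⟨A', B', g₂, s₂, ζ₂, ε₂, hP₂⟩ := hinfo j' l' hjl' (hg j' hj'a) (hg l' hl'a) hc'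
          have := ((𝓛.upd φ' hφ' 𝓓).no_wild2 hx (hY j (hg j hja)) (hY l (hg l hla)) (hY j' (hg j' hj'a))
            (hY l' (hg l' hl'a)) (hg j hja) (hg l hla) (hg j' hj'a) (hg l' hl'a) hjl hjl' (by
              rintro (⟨-, h⟩ | ⟨h, -⟩)
              · exact h2 h
              · exact h1 h) hP₁ hP₂).1
          omega

end Loc

end Pool.Agent.Y226.ZG
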