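import Mathlib

/-!
# The number of zeros of a function on a curve in general position
-/

set_option autoImplicit false
set_option linter.unusedSectionVars false

open MvPolynomial Module

namespace Pool.Agent.Y226.ZU

variable {K : Type} [Field K] {n : ℕ} {I : Ideal (MvPolynomial (Fin n) K)}

theorem smul_eq (c : K) (q : MvPolynomial (Fin n) K ⧸ I) :
    c • q = Ideal.Quotient.mk I (C c) * q := by
  obtain ⟨g, rfl⟩ := Ideal.Quotient.mk_surjective q
  rw [← map_mul, ← smul_eq_C_mul]
  rfl

/-- monomials on the curve -/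
noncomputable def mon (I : Ideal (MvPolynomial (Fin n) K)) (e : Fin n → ℕ) :
    MvPolynomial (Fin n) K ⧸ I := ∏ i, (Ideal.Quotient.mk I (X i)) ^ e i

theorem mon_add (e e' : Fin n → ℕ) : mon I (e + e') = mon I e * mon I e' := by
  unfold mon
  rw [← Finset.prod_mul_distrib]
  exact Finset.prod_congr rfl fun i _ => by rw [Pi.add_apply, pow_add]

theorem mon_single (i : Fin n) (u : ℕ) :
    mon I (Pi.single i u) = (Ideal.Quotient.mk I (X i)) ^ u := by
  unfold mon
  rw [Finset.prod_eq_single i]
  · rw [Pi.single_eq_same]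
  · intro j _ hj
    rw [Pi.single_eq_of_ne hj, pow_zero]
  · intro h
    exact absurd (Finset.mem_univ i) h

theorem mon_zero : mon I 0 = 1 := by
  unfold mon
  exact Finset.prod_eq_one fun i _ => by rw [Pi.zero_apply, pow_zero]

/-- irreducible exponents -/
def Irr (A : ℕ) (e : Fin n → ℕ) : Prop := ∀ i j, i ≠ j → e i < A ∨ e j < A

theorem mem_span_irr {A : ℕ} (hgen : ∀ i j : Fin n, i ≠ j → ∃ (a b : ℕ) (g : ℕ → ℕ → K),
      a ≤ A ∧ b ≤ A ∧ g a b ≠ 0 ∧ ∑ u ∈ Finset.range (a + 1), ∑ v ∈ Finset.range (b + 1),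
        C (g u v) * X i ^ u * X j ^ v ∈ I) : ∀ (s : ℕ) (e : Fin n → ℕ), ∑ i, e i = s →
    mon I e ∈ Submodule.span K {q | ∃ e' : Fin n → ℕ, Irr A e' ∧ e' ≤ e ∧ q = mon I e'} := by
  classical
  intro s
  induction s using Nat.strong_induction_on with
  | _ s ih =>
    intro e he
    by_cases hirr : Irr A e
    · exact Submodule.subset_span ⟨e, hirr, le_rfl, rfl⟩
    · unfold Irr at hirr
      push Not at hirr
      obtain ⟨i, j, hij, hi, hj⟩ := hirr
      obtain ⟨a, b, g, ha, hb, hg, hrel⟩ := hgen i j hij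
      set e₀ : Fin n → ℕ := e - Pi.single i a - Pi.single j b with he₀
      have hsplit : e₀ + Pi.single i a + Pi.single j b = e := by
        funext l
        simp only [he₀, Pi.add_apply, Pi.sub_apply]
        by_cases hli : l = i
        · subst hli
          rw [Pi.single_eq_same, Pi.single_eq_of_ne hij]
          omega
        · by_cases hlj : l = j
          · subst hlj
            rw [Pi.single_eq_same, Pi.single_eq_of_ne hli]
            omega
          · rw [Pi.single_eq_of_ne hli, Pi.single_eq_of_ne hlj]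
            omega
      have hmon : ∀ u v : ℕ, mon I (e₀ + Pi.single i u + Pi.single j v) =
          mon I e₀ * (Ideal.Quotient.mk I (X i)) ^ u * (Ideal.Quotient.mk I (X j)) ^ v := by
        intro u v
        rw [mon_add, mon_add, mon_single, mon_single]
      have hle : ∀ u v : ℕ, u ≤ a → v ≤ b → e₀ + Pi.single i u + Pi.single j v ≤ e := by
        intro u v hu hv
        rw [← hsplit]
        exact add_le_add (add_le_add le_rfl (Pi.single_le_single.2 hu)) (Pi.single_le_single.2 hv)
      have hrel' : ∑ q ∈ Finset.range (a + 1) ×ˢ Finset.range (b + 1), g q.1 q.2 •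
          mon I (e₀ + Pi.single i q.1 + Pi.single j q.2) = 0 := by
        have h1 := (Ideal.Quotient.eq_zero_iff_mem).2 hrel
        rw [map_sum] at h1
        rw [Finset.sum_product]
        have h2 : ∀ u ∈ Finset.range (a + 1), (∑ v ∈ Finset.range (b + 1), g u v •
            mon I (e₀ + Pi.single i u + Pi.single j v)) = mon I e₀ *
            Ideal.Quotient.mk I (∑ v ∈ Finset.range (b + 1), C (g u v) * X i ^ u * X j ^ v) := by
          intro u _
          rw [map_sum, Finset.mul_sum]
          refine Finset.sum_congr rfl fun v _ => ?_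
          rw [hmon, map_mul, map_mul, map_pow, map_pow, smul_eq]
          ring
        rw [Finset.sum_congr rfl h2, ← Finset.mul_sum, h1, mul_zero]
      have hab : (a, b) ∈ Finset.range (a + 1) ×ˢ Finset.range (b + 1) := by simp
      rw [← Finset.add_sum_erase _ _ hab] at hrel'
      have hsolve : mon I e = ∑ q ∈ (Finset.range (a + 1) ×ˢ Finset.range (b + 1)).erase (a, b),
          (-(g a b)⁻¹ * g q.1 q.2) • mon I (e₀ + Pi.single i q.1 + Pi.single j q.2) := by
        have h1 := eq_neg_of_add_eq_zero_left hrel'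
        simp only at h1
        rw [hsplit] at h1
        have h2 := congrArg (fun x => (g a b)⁻¹ • x) h1
        simp only [smul_smul, inv_mul_cancel₀ hg, one_smul] at h2
        rw [h2, smul_neg, ← neg_smul, Finset.smul_sum]
        refine Finset.sum_congr rfl fun q _ => ?_
        rw [smul_smul]
      rw [hsolve]
      refine Submodule.sum_mem _ fun q hq => Submodule.smul_mem _ _ ?_
      obtain ⟨hne, hq'⟩ := Finset.mem_erase.1 hq
      rw [Finset.mem_product, Finset.mem_range, Finset.mem_range] at hq'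
      have hle' := hle q.1 q.2 (by omega) (by omega)
      have hlt : ∑ l, (e₀ + Pi.single i q.1 + Pi.single j q.2 : Fin n → ℕ) l < s := by
        rw [← he, ← hsplit]
        simp only [Pi.add_apply, Finset.sum_add_distrib, Finset.sum_pi_single', Finset.mem_univ,
          if_true]
        have : q.1 ≠ a ∨ q.2 ≠ b := by
          by_contra hcon
          push Not at hcon
          exact hne (Prod.ext hcon.1 hcon.2)
        omega
      refine Submodule.span_mono ?_ (ih _ hlt _ rfl)
      rintro x ⟨e', h1, h2, h3⟩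
      exact ⟨e', h1, h2.trans hle', h3⟩

/-- functions with bounded degrees on the curve -/
noncomputable def BB (I : Ideal (MvPolynomial (Fin n) K)) (m : ℕ) :
    Submodule K (MvPolynomial (Fin n) K ⧸ I) :=
  Submodule.span K {q | ∃ e : Fin n → ℕ, (∀ i, e i ≤ m) ∧ q = mon I e}

theorem exists_T (n A m : ℕ) (hn : 0 < n) (hA : 0 < A) : ∃ T : Finset (Fin n → ℕ),
    (∀ e : Fin n → ℕ, Irr A e → (∀ i, e i ≤ m) → e ∈ T) ∧ T.card ≤ n * A ^ n * (m + 1) := by
  classical
  refine ⟨Finset.univ.biUnion fun i : Fin n => Fintype.piFinset fun l =>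
    if l = i then Finset.range (m + 1) else Finset.range A, ?_, ?_⟩
  · intro e hirr hm
    rw [Finset.mem_biUnion]
    by_cases h : ∃ i, A ≤ e i
    · obtain ⟨i, hi⟩ := h
      refine ⟨i, Finset.mem_univ i, ?_⟩
      rw [Fintype.mem_piFinset]
      intro l
      split_ifs with hl
      · rw [Finset.mem_range]
        have := hm l
        omega
      · rw [Finset.mem_range]
        rcases hirr l i hl with h1 | h1
        · exact h1
        · omega
    · push Not at h
      refine ⟨⟨0, hn⟩, Finset.mem_univ _, ?_⟩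
      rw [Fintype.mem_piFinset]
      intro l
      split_ifs with hl
      · rw [Finset.mem_range]
        have := hm l
        omega
      · rw [Finset.mem_range]
        exact h l
  · refine (Finset.card_biUnion_le_card_mul _ _ (A ^ n * (m + 1)) fun i _ => ?_).trans ?_
    · rw [Fintype.card_piFinset, ← Finset.mul_prod_erase Finset.univ _ (Finset.mem_univ i),
        if_pos rfl, Finset.card_range, mul_comm]
      refine Nat.mul_le_mul_right _ ?_
      have h1 : ∏ l ∈ Finset.univ.erase i, (if l = i then Finset.range (m + 1) else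
          Finset.range A).card = A ^ (n - 1) := by
        rw [Finset.prod_congr rfl (g := fun _ => A) (fun l hl => by
          rw [if_neg (Finset.ne_of_mem_erase hl), Finset.card_range]), Finset.prod_const,
          Finset.card_erase_of_mem (Finset.mem_univ i), Finset.card_univ, Fintype.card_fin]
      rw [h1]
      exact Nat.pow_le_pow_right hA (Nat.sub_le n 1)
    · rw [Finset.card_univ, Fintype.card_fin, mul_assoc]

theorem BB_rank {A : ℕ} (hn : 0 < n) (hA : 0 < A)
    (hgen : ∀ i j : Fin n, i ≠ j → ∃ (a b : ℕ) (g : ℕ → ℕ → K),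
      a ≤ A ∧ b ≤ A ∧ g a b ≠ 0 ∧ ∑ u ∈ Finset.range (a + 1), ∑ v ∈ Finset.range (b + 1),
        C (g u v) * X i ^ u * X j ^ v ∈ I) (m : ℕ) :
    FiniteDimensional K (BB I m) ∧ finrank K (BB I m) ≤ n * A ^ n * (m + 1) := by
  classical
  obtain ⟨T, hT, hcard⟩ := exists_T n A m hn hA
  have hle : BB I m ≤ Submodule.span K ((T.image (mon I) : Finset _) : Set _) := by
    refine Submodule.span_le.2 ?_
    rintro q ⟨e, he, rfl⟩
    refine Submodule.span_mono ?_ (mem_span_irr hgen _ e rfl)
    rintro x ⟨e', h1, h2, rfl⟩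
    rw [Finset.coe_image]
    exact ⟨e', hT e' h1 fun i => (h2 i).trans (he i), rfl⟩
  haveI : FiniteDimensional K (Submodule.span K ((T.image (mon I) : Finset _) :
      Set (MvPolynomial (Fin n) K ⧸ I))) := FiniteDimensional.span_finset K _
  refine ⟨Submodule.finiteDimensional_of_le hle, (Submodule.finrank_mono hle).trans ?_⟩
  exact (finrank_span_finset_le_card _).trans (Finset.card_image_le.trans hcard)

theorem BB_mul {m m' : ℕ} {x y : MvPolynomial (Fin n) K ⧸ I} (hx : x ∈ BB I m)
    (hy : y ∈ BB I m') : x * y ∈ BB I (m + m') := by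
  unfold BB at hx hy ⊢
  induction hx using Submodule.span_induction with
  | mem x hx =>
    obtain ⟨e, he, rfl⟩ := hx
    induction hy using Submodule.span_induction with
    | mem y hy =>
      obtain ⟨e', he', rfl⟩ := hy
      rw [← mon_add]
      exact Submodule.subset_span ⟨e + e', fun i => add_le_add (he i) (he' i), rfl⟩
    | zero => rw [mul_zero]; exact Submodule.zero_mem _
    | add y z _ _ hy hz => rw [mul_add]; exact Submodule.add_mem _ hy hz
    | smul c y _ hy => rw [mul_smul_comm]; exact Submodule.smul_mem _ _ hy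
  | zero => rw [zero_mul]; exact Submodule.zero_mem _
  | add x z _ _ hx hz => rw [add_mul]; exact Submodule.add_mem _ hx hz
  | smul c x _ hx => rw [smul_mul_assoc]; exact Submodule.smul_mem _ _ hx

theorem BB_mk {m : ℕ} {f : MvPolynomial (Fin n) K} (hf : ∀ i, f.degreeOf i ≤ m) :
    Ideal.Quotient.mk I f ∈ BB I m := by
  rw [f.as_sum, map_sum]
  refine Submodule.sum_mem _ fun s hs => ?_
  have h1 : Ideal.Quotient.mk I (monomial s (coeff s f)) = coeff s f • mon I (fun i => s i) := by
    rw [monomial_eq, map_mul, smul_eq]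
    congr 1
    unfold mon
    rw [Finsupp.prod_fintype _ _ (fun i => pow_zero _), map_prod]
    exact Finset.prod_congr rfl fun i _ => map_pow _ _ _
  rw [h1]
  exact Submodule.smul_mem _ _ (Submodule.subset_span
    ⟨fun i => s i, fun i => (monomial_le_degreeOf i hs).trans (hf i), rfl⟩)

theorem BB_mono {m m' : ℕ} (h : m ≤ m') : BB I m ≤ BB I m' := by
  refine Submodule.span_mono ?_
  rintro q ⟨e, he, rfl⟩
  exact ⟨e, fun i => (he i).trans h, rfl⟩

theorem BB_pow {m : ℕ} {x : MvPolynomial (Fin n) K ⧸ I} (hx : x ∈ BB I m) (t : ℕ) :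
    x ^ t ∈ BB I (t * m) := by
  induction t with
  | zero =>
    rw [pow_zero, ← mon_zero]
    exact Submodule.subset_span ⟨0, fun _ => Nat.zero_le _, rfl⟩
  | succ t ih =>
    rw [pow_succ, Nat.succ_mul]
    exact BB_mul ih hx

/-- evaluation at a point of the curve -/
noncomputable def evQ {P : Fin n → K} (hP : ∀ f ∈ I, eval P f = 0) :
    (MvPolynomial (Fin n) K ⧸ I) →ₐ[K] K :=
  Ideal.Quotient.liftₐ I (aeval P) fun f hf => hP f hf

theorem evQ_mk {P : Fin n → K} (hP : ∀ f ∈ I, eval P f = 0) (f : MvPolynomial (Fin n) K) :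
    evQ hP (Ideal.Quotient.mk I f) = eval P f := by
  unfold evQ
  rw [Ideal.Quotient.liftₐ_apply, Ideal.Quotient.lift_mk]
  rfl

/-- interpolation -/
theorem exists_interp (hn : 0 < n) (Z : Finset (Fin n → K)) (P₀ : Fin n → K) : ∃ L : MvPolynomial (Fin n) K,
    Ideal.Quotient.mk I L ∈ BB I Z.card ∧ eval P₀ L ≠ 0 ∧ ∀ P ∈ Z, P ≠ P₀ → eval P L = 0 := by
  classical
  have hne : ∀ P : Fin n → K, ∃ i : Fin n, P ≠ P₀ → P₀ i ≠ P i := by
    intro P
    by_cases h : P = P₀
    · exact ⟨⟨0, hn⟩, fun h' => absurd h h'⟩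
    · obtain ⟨i, hi⟩ := Function.ne_iff.1 h
      exact ⟨i, fun _ => hi.symm⟩
  choose ii hii using hne
  refine ⟨∏ P ∈ Z.erase P₀, (X (ii P) - C (P (ii P))), ?_, ?_, ?_⟩
  · have h1 : ∀ s : Finset (Fin n → K), Ideal.Quotient.mk I
        (∏ P ∈ s, (X (ii P) - C (P (ii P)))) ∈ BB I s.card := by
      intro s
      induction s using Finset.induction_on with
      | empty =>
        rw [Finset.prod_empty, map_one, Finset.card_empty, ← mon_zero]
        exact Submodule.subset_span ⟨0, fun _ => le_rfl, rfl⟩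
      | insert P s hP ih =>
        rw [Finset.prod_insert hP, map_mul, Finset.card_insert_of_notMem hP, add_comm]
        refine BB_mul (BB_mk fun i => ?_) ih
        refine (degreeOf_sub_le i _ _).trans (max_le ?_ ?_)
        · rw [degreeOf_X]
          split_ifs <;> omega
        · rw [degreeOf_C]
          omega
    have h2 := h1 (Z.erase P₀)
    refine Submodule.span_mono ?_ h2
    rintro q ⟨e, he, rfl⟩
    exact ⟨e, fun i => (he i).trans (Finset.card_le_card (Finset.erase_subset _ _)), rfl⟩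
  · rw [map_prod]
    refine Finset.prod_ne_zero_iff.2 fun P hP => ?_
    rw [map_sub, eval_X, eval_C]
    exact sub_ne_zero.2 (hii P (Finset.ne_of_mem_erase hP))
  · intro P hP hPP
    rw [map_prod]
    refine Finset.prod_eq_zero (Finset.mem_erase.2 ⟨hPP, hP⟩) ?_
    rw [map_sub, eval_X, eval_C, sub_self]

theorem rank_step (hI : I.IsPrime) (hn : 0 < n) {f : MvPolynomial (Fin n) K} (hf : f ∉ I) {δ : ℕ}
    (hδ : Ideal.Quotient.mk I f ∈ BB I δ) (Z : Finset (Fin n → K)) (hZ : ∀ P ∈ Z, ∀ f ∈ I, eval P f = 0)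
    (hZf : ∀ P ∈ Z, eval P f = 0) {m : ℕ} (hm : Z.card ≤ m + δ)
    (hfd : FiniteDimensional K (BB I m)) (hfd' : FiniteDimensional K (BB I (m + δ))) :
    Z.card + finrank K (BB I m) ≤ finrank K (BB I (m + δ)) := by
  classical
  haveI := hI
  let E : (MvPolynomial (Fin n) K ⧸ I) →ₗ[K] (Z → K) :=
    LinearMap.pi fun P => (evQ (hZ P P.2)).toLinearMap
  let E' : BB I (m + δ) →ₗ[K] (Z → K) := E.domRestrict (BB I (m + δ))
  have hmono : BB I Z.card ≤ BB I (m + δ) := by
    refine Submodule.span_mono ?_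
    rintro q ⟨e, he, rfl⟩
    exact ⟨e, fun i => (he i).trans hm, rfl⟩
  have hsurj : Function.Surjective E' := by
    intro φ
    choose L hL1 hL2 hL3 using fun P : Z => exists_interp (I := I) hn Z P
    refine ⟨⟨∑ P : Z, (φ P * (eval (P : Fin n → K) (L P))⁻¹) • Ideal.Quotient.mk I (L P),
      Submodule.sum_mem _ fun P _ => Submodule.smul_mem _ _ (hmono (hL1 P))⟩, ?_⟩
    funext Q
    show evQ (hZ Q Q.2) (∑ P : Z, (φ P * (eval (P : Fin n → K) (L P))⁻¹) •
      Ideal.Quotient.mk I (L P)) = φ Q
    rw [map_sum, Finset.sum_eq_single Q]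
    · rw [map_smul, evQ_mk, smul_eq_mul, mul_assoc, inv_mul_cancel₀ (hL2 Q), mul_one]
    · intro P _ hPQ
      rw [map_smul, evQ_mk, hL3 P Q Q.2 (fun h => hPQ (Subtype.ext h.symm)), smul_zero]
    · intro h
      exact absurd (Finset.mem_univ _) h
  have hrn := LinearMap.finrank_range_add_finrank_ker E'
  rw [LinearMap.range_eq_top.2 hsurj, finrank_top, Module.finrank_fintype_fun_eq_card,
    Fintype.card_coe] at hrn
  have hf0 : Ideal.Quotient.mk I f ≠ 0 := fun h => hf (Ideal.Quotient.eq_zero_iff_mem.1 h)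
  have hinj : Function.Injective (LinearMap.mulLeft K (Ideal.Quotient.mk I f)) := by
    intro x y hxy
    exact mul_left_cancel₀ hf0 hxy
  have h1 : finrank K ((BB I m).map (LinearMap.mulLeft K (Ideal.Quotient.mk I f))) =
      finrank K (BB I m) :=
    (LinearEquiv.finrank_eq (Submodule.equivMapOfInjective _ hinj _)).symm
  have h2 : (BB I m).map (LinearMap.mulLeft K (Ideal.Quotient.mk I f)) ≤
      (LinearMap.ker E').map (BB I (m + δ)).subtype := by
    rintro _ ⟨b, hb, rfl⟩
    have hmem : Ideal.Quotient.mk I f * b ∈ BB I (m + δ) := by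
      rw [add_comm]
      exact BB_mul hδ hb
    refine ⟨⟨_, hmem⟩, ?_, rfl⟩
    show E' ⟨_, hmem⟩ = 0
    funext P
    show evQ (hZ P P.2) (Ideal.Quotient.mk I f * b) = 0
    rw [map_mul, evQ_mk, hZf P P.2, zero_mul]
  have h3 := Submodule.finrank_mono h2
  rw [h1, Submodule.finrank_map_subtype_eq] at h3
  omega

/-- the number of zeros -/
theorem card_le (hI : I.IsPrime) (hn : 0 < n) {A : ℕ} (hA : 0 < A)
    (hgen : ∀ i j : Fin n, i ≠ j → ∃ (a b : ℕ) (g : ℕ → ℕ → K),
      a ≤ A ∧ b ≤ A ∧ g a b ≠ 0 ∧ ∑ u ∈ Finset.range (a + 1), ∑ v ∈ Finset.range (b + 1),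
        C (g u v) * X i ^ u * X j ^ v ∈ I) {f : MvPolynomial (Fin n) K} (hf : f ∉ I) {δ : ℕ}
    (hδ : Ideal.Quotient.mk I f ∈ BB I δ) (Z : Finset (Fin n → K)) (hZ : ∀ P ∈ Z, ∀ f ∈ I, eval P f = 0)
    (hZf : ∀ P ∈ Z, eval P f = 0) : Z.card ≤ n * A ^ n * δ := by
  set c := n * A ^ n with hc
  have hfd := fun m => (BB_rank hn hA hgen m).1
  have hrk := fun m => (BB_rank hn hA hgen m).2
  set m₀ := Z.card with hm₀
  have hiter : ∀ t : ℕ, t * m₀ ≤ finrank K (BB I (m₀ + t * δ)) := by
    intro t
    induction t with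
    | zero => simp
    | succ t ih =>
      have h1 := rank_step hI hn hf hδ Z hZ hZf (m := m₀ + t * δ) (by omega) (hfd _) (hfd _)
      have h2 : m₀ + (t + 1) * δ = m₀ + t * δ + δ := by ring
      rw [h2, Nat.succ_mul]
      omega
  by_contra hcon
  push Not at hcon
  have h1 := (hiter (c * (m₀ + 1) + 1)).trans (hrk _)
  have h2 : (c * (m₀ + 1) + 1) * (c * δ + 1) ≤ (c * (m₀ + 1) + 1) * m₀ :=
    Nat.mul_le_mul_left _ hcon
  have h3 : (c * (m₀ + 1) + 1) * (c * δ + 1) ≤ c * (m₀ + (c * (m₀ + 1) + 1) * δ + 1) := h2.trans h1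
  have h4 : (c * (m₀ + 1) + 1) * (c * δ + 1) = c * (m₀ + (c * (m₀ + 1) + 1) * δ + 1) + 1 := by ring
  omega

end Pool.Agent.Y226.ZU
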