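import Pool.Agent.Y226.ZU.Glob
import Pool.Agent.Y226.ZU.Count
import Pool.Agent.Y226.ZG.Main2

/-!
# Facts about affine images with algebraic parameters
-/

set_option autoImplicit false
set_option linter.unusedSectionVars false

open UpperHalfPlane H294ZP Polynomial

namespace Pool.Agent.Y226.ZU

open Pool.Agent.Y226 Pool.Agent.Y226.ZG Pool.Agent.Y226.ZM

/-- the modular equation as a polynomial in two of the coordinates -/
noncomputable def PsiMA {n : ℕ} (lam mu : Fin n → QA) (j k : Fin n) (N : ℕ) :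
    MvPolynomial (Fin n) QA :=
  PsiE ((MvPolynomial.C : QA →+* MvPolynomial (Fin n) QA).comp iA) (mP N) (mD N)
    (MvPolynomial.C (lam j) * MvPolynomial.X j + MvPolynomial.C (mu j))
    (MvPolynomial.C (lam k) * MvPolynomial.X k + MvPolynomial.C (mu k))

theorem PsiMA_eval₂ {n : ℕ} (lam mu : Fin n → QA) (j k : Fin n) (N : ℕ) (y : Fin n → ℂ) :
    MvPolynomial.eval₂ rA y (PsiMA lam mu j k N) =
      PsiE ιZ (mP N) (mD N) (rA (lam j) * y j + rA (mu j)) (rA (lam k) * y k + rA (mu k)) := by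
  show MvPolynomial.eval₂Hom rA y (PsiMA lam mu j k N) = _
  unfold PsiMA
  rw [map_PsiE]
  have e : ((MvPolynomial.eval₂Hom rA y).comp
      ((MvPolynomial.C : QA →+* MvPolynomial (Fin n) QA).comp iA)) = ιZ := by
    rw [← rA_comp]
    refine RingHom.ext fun z => ?_
    simp
  rw [e]
  simp

/-- the bound for the degrees of the modular equation -/
noncomputable def dN (N : ℕ) : ℕ := mD N + ∑ i ∈ Finset.range (mD N + 1), (mP N i).natDegree

theorem PsiMA_BB {n : ℕ} (I : Ideal (MvPolynomial (Fin n) QA)) (lam mu : Fin n → QA)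
    (j k : Fin n) (N : ℕ) : Ideal.Quotient.mk I (PsiMA lam mu j k N) ∈ BB I (dN N) := by
  have hlin : ∀ i, Ideal.Quotient.mk I (MvPolynomial.C (lam i) * MvPolynomial.X i +
      MvPolynomial.C (mu i)) ∈ BB I 1 := by
    intro i
    refine BB_mk fun l => ?_
    refine (MvPolynomial.degreeOf_add_le l _ _).trans (max_le ?_ ?_)
    · refine (MvPolynomial.degreeOf_mul_le l _ _).trans ?_
      rw [MvPolynomial.degreeOf_C, MvPolynomial.degreeOf_X]
      split_ifs <;> omega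
    · rw [MvPolynomial.degreeOf_C]
      omega
  unfold PsiMA PsiE
  rw [map_sum]
  refine Submodule.sum_mem _ fun i hi => ?_
  rw [map_mul, map_pow, hom_eval₂]
  set x := Ideal.Quotient.mk I (MvPolynomial.C (lam j) * MvPolynomial.X j +
      MvPolynomial.C (mu j)) with hx
  have h1 : (mP N i).eval₂ ((Ideal.Quotient.mk I).comp
      ((MvPolynomial.C : QA →+* MvPolynomial (Fin n) QA).comp iA)) x ∈
      BB I (mP N i).natDegree := by
    rw [eval₂_eq_sum_range]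
    refine Submodule.sum_mem _ fun l hl => ?_
    have e : (Ideal.Quotient.mk I).comp ((MvPolynomial.C : QA →+* MvPolynomial (Fin n) QA).comp iA)
        ((mP N i).coeff l) * x ^ l = (iA ((mP N i).coeff l)) • x ^ l := by
      rw [smul_eq]
      rfl
    rw [e]
    refine Submodule.smul_mem _ _ (BB_mono ?_ (BB_pow (hlin j) l))
    have := Finset.mem_range.1 hl
    omega
  refine BB_mono ?_ (BB_mul h1 (BB_pow (hlin k) i))
  have h2 : (mP N i).natDegree ≤ ∑ i ∈ Finset.range (mD N + 1), (mP N i).natDegree :=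
    Finset.single_le_sum (f := fun i => (mP N i).natDegree) (fun _ _ => Nat.zero_le _) hi
  have := Finset.mem_range.1 hi
  unfold dN
  omega

section

variable {𝔽 : Type} [Field 𝔽] [Algebra QA 𝔽] {n : ℕ} (𝒞 : GP QA 𝔽 n)
  {I : Ideal (MvPolynomial (Fin n) QA)}
  (hx2 : ∀ f : MvPolynomial (Fin n) QA, MvPolynomial.aeval 𝒞.x f = 0 ↔ f ∈ I)

include hx2

theorem coord_zero {f : MvPolynomial (Fin n) QA} (hf : f ∉ I) (i : Fin n) : ∃ q : QA[X], q ≠ 0 ∧
    ∀ y ∈ VC I, MvPolynomial.eval₂ rA y f = 0 → ev q (y i) = 0 := by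
  obtain ⟨q, hq, hq'⟩ := coord_poly 𝒞 (fun h => hf ((hx2 f).1 h)) i
  refine ⟨q, hq, fun y hy hfy => ?_⟩
  have := hq' ℂ rA y (fun g hg => hy g ((hx2 g).1 hg)) hfy
  unfold ev
  rwa [eval_map]

theorem zeros_finite {f : MvPolynomial (Fin n) QA} (hf : f ∉ I) :
    {y | y ∈ VC I ∧ MvPolynomial.eval₂ rA y f = 0}.Finite := by
  choose q hq hq' using coord_zero 𝒞 hx2 hf
  refine Set.Finite.subset (Set.Finite.pi' fun i => ((q i).map rA).rootSet_finite ℂ) ?_
  rintro y ⟨hy, hfy⟩ i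
  rw [mem_rootSet]
  refine ⟨(Polynomial.map_ne_zero_iff rA.injective).2 (hq i), ?_⟩
  rw [coe_aeval_eq_eval]
  exact hq' i y hy hfy

theorem zeros_alg {f : MvPolynomial (Fin n) QA} (hf : f ∉ I) : ∀ y ∈ VC I,
    MvPolynomial.eval₂ rA y f = 0 → ∃ s : Fin n → QA, (fun i => rA (s i)) = y ∧ OnV I s := by
  intro y hy hfy
  have h1 : ∀ i, ∃ s : QA, rA s = y i := by
    intro i
    obtain ⟨q, hq, hq'⟩ := coord_zero 𝒞 hx2 hf i
    exact root_algebraic hq (hq' y hy hfy)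
  choose s hs using h1
  have hsy : (fun i => rA (s i)) = y := funext hs
  refine ⟨s, hsy, fun g hg => ?_⟩
  have h2 := hy g hg
  rw [← hsy, eval₂_rA] at h2
  exact (map_eq_zero rA).1 h2

/-- the number of zeros on the curve -/
theorem zeros_card (hI : I.IsPrime) (hn : 0 < n) {A : ℕ} (hA : 0 < A)
    (hgen : ∀ i j : Fin n, i ≠ j → ∃ (a b : ℕ) (g : ℕ → ℕ → QA),
      a ≤ A ∧ b ≤ A ∧ g a b ≠ 0 ∧ ∑ u ∈ Finset.range (a + 1), ∑ v ∈ Finset.range (b + 1),
        MvPolynomial.C (g u v) * MvPolynomial.X i ^ u * MvPolynomial.X j ^ v ∈ I)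
    {f : MvPolynomial (Fin n) QA} (hf : f ∉ I) {δ : ℕ} (hδ : Ideal.Quotient.mk I f ∈ BB I δ) :
    {y | y ∈ VC I ∧ MvPolynomial.eval₂ rA y f = 0}.ncard ≤ n * A ^ n * δ := by
  classical
  have hfin := zeros_finite 𝒞 hx2 hf
  have hsel : ∀ y : Fin n → ℂ, ∃ s : Fin n → QA, (y ∈ VC I ∧ MvPolynomial.eval₂ rA y f = 0) →
      (fun i => rA (s i)) = y ∧ OnV I s := by
    intro y
    by_cases h : y ∈ VC I ∧ MvPolynomial.eval₂ rA y f = 0
    · obtain ⟨s, hs⟩ := zeros_alg 𝒞 hx2 hf y h.1 h.2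
      exact ⟨s, fun _ => hs⟩
    · exact ⟨0, fun h' => absurd h' h⟩
  choose s hs using hsel
  rw [Set.ncard_eq_toFinset_card _ hfin]
  have hmem : ∀ y ∈ hfin.toFinset, y ∈ VC I ∧ MvPolynomial.eval₂ rA y f = 0 := fun y hy =>
    (hfin.mem_toFinset).1 hy
  have hinj : Set.InjOn s hfin.toFinset := by
    intro y hy y' hy' h
    rw [← (hs y (hmem y hy)).1, ← (hs y' (hmem y' hy')).1, h]
  rw [← Finset.card_image_of_injOn hinj]
  refine card_le hI hn hA hgen hf hδ _ ?_ ?_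
  · intro P hP
    obtain ⟨y, hy, rfl⟩ := Finset.mem_image.1 hP
    exact (hs y (hmem y hy)).2
  · intro P hP
    obtain ⟨y, hy, rfl⟩ := Finset.mem_image.1 hP
    have h1 := (hmem y hy).2
    rw [← (hs y (hmem y hy)).1, eval₂_rA] at h1
    exact (map_eq_zero rA).1 h1

theorem psi_notMem {lam mu : Fin n → QA} (hlam : ∀ i, lam i ≠ 0) {j k : Fin n} (hjk : j ≠ k)
    {N : ℕ} (hN : 0 < N) : PsiMA lam mu j k N ∉ I := by
  intro hmem
  rw [← hx2] at hmem
  refine psi_pole 𝒞 iA hjk hN (a := lam j) (b := mu j) (b' := mu k) (hlam k) ?_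
  rw [← hmem]
  show _ = ((MvPolynomial.aeval 𝒞.x : MvPolynomial (Fin n) QA →ₐ[QA] 𝔽).toRingHom)
    (PsiMA lam mu j k N)
  unfold PsiMA
  rw [map_PsiE]
  have e1 : (((MvPolynomial.aeval 𝒞.x : MvPolynomial (Fin n) QA →ₐ[QA] 𝔽).toRingHom).comp
      ((MvPolynomial.C : QA →+* MvPolynomial (Fin n) QA).comp iA)) =
      (algebraMap QA 𝔽).comp iA := by
    refine RingHom.ext fun z => ?_
    show MvPolynomial.aeval 𝒞.x (MvPolynomial.C (iA z)) = _
    rw [MvPolynomial.aeval_C]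
    rfl
  have e2 : ∀ c d : QA, ∀ i, ((MvPolynomial.aeval 𝒞.x : MvPolynomial (Fin n) QA →ₐ[QA] 𝔽).toRingHom)
      (MvPolynomial.C c * MvPolynomial.X i + MvPolynomial.C d) =
      algebraMap QA 𝔽 c * 𝒞.x i + algebraMap QA 𝔽 d := by
    intro c d i
    show MvPolynomial.aeval 𝒞.x (MvPolynomial.C c * MvPolynomial.X i + MvPolynomial.C d) = _
    rw [map_add, map_mul, MvPolynomial.aeval_C, MvPolynomial.aeval_C, MvPolynomial.aeval_X]
  rw [e1, e2, e2]

omit hx2 in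
theorem coll_psi {Γ : Set ℂ} {lam mu : Fin n → QA} {r : ℕ} (Z : SV Γ n r) {j k : Fin n}
    (h : ∃ c, Z.cls j = some c ∧ Z.cls k = some c) : ∃ N, 0 < N ∧
      ∀ y : Fin n → ℂ, (fun i => rA (lam i) * y i + rA (mu i)) ∈ Z.locus →
        MvPolynomial.eval₂ rA y (PsiMA lam mu j k N) = 0 := by
  obtain ⟨c, hcj, hck⟩ := h
  obtain ⟨a', b', c', d', hdet, hrel⟩ := Z.rel_unif hcj hck
  obtain ⟨N, hN⟩ : ∃ N : ℕ, (N : ℤ) = a' * d' - b' * c' :=
    ⟨(a' * d' - b' * c').toNat, by omega⟩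
  have hN0 : 0 < N := by
    have : (0 : ℤ) < N := by rw [hN]; exact hdet
    exact_mod_cast this
  refine ⟨N, hN0, fun y hy => ?_⟩
  obtain ⟨w, w', hww, hw, hw'⟩ := hrel _ hy
  obtain ⟨-, -, -, -, -, -, -, -, -, -, h5⟩ := modular_spec N hN0
  have hΨ := h5 w w' a' b' c' d' hN.symm hww
  rw [← hw, ← hw'] at hΨ
  rw [PsiMA_eval₂]
  exact hΨ

/-- each special subvariety gives an equation which does not hold on the curve -/
theorem exists_eqn (hconst : ∀ (i : Fin n) (c : QA), MvPolynomial.X i - MvPolynomial.C c ∉ I)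
    {Γ : Finset ℂ} (hΓ : ∀ γ ∈ Γ, IsAlgebraic ℚ γ) {lam mu : Fin n → QA}
    (hlam : ∀ i, lam i ≠ 0) {r : ℕ} (Z : SV (Γ : Set ℂ) n r) (hr : r < n) : ∃ f, f ∉ I ∧
      ∀ y : Fin n → ℂ, (fun i => rA (lam i) * y i + rA (mu i)) ∈ Z.locus →
        MvPolynomial.eval₂ rA y f = 0 := by
  by_cases hall : ∃ i, Z.cls i = none
  · obtain ⟨i, hi⟩ := hall
    obtain ⟨c, hc⟩ := int_alg hΓ (Z.const i) (Z.int i)
    refine ⟨_, hconst i ((c - mu i) / lam i), fun y hy => ?_⟩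
    have h1 : rA (lam i) * y i + rA (mu i) = Z.const i := by
      obtain ⟨w, hw⟩ := hy
      exact (hw i).1 hi
    rw [MvPolynomial.eval₂_sub, MvPolynomial.eval₂_X, MvPolynomial.eval₂_C, map_div₀, map_sub, hc,
      ← h1]
    have : rA (lam i) ≠ 0 := fun h => hlam i ((map_eq_zero rA).1 h)
    field_simp
    ring
  · push Not at hall
    obtain ⟨j, -, k, -, hjk, hc⟩ := coll Z.cls Finset.univ (by simpa using hr)
      (fun x _ => hall x)
    obtain ⟨N, hN, hΨ⟩ := coll_psi (lam := lam) (mu := mu) Z hc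
    exact ⟨_, psi_notMem 𝒞 hx2 hlam hjk hN, hΨ⟩

end

end Pool.Agent.Y226.ZU
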