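import Pool.Agent.Y226.ZU.Par
import Pool.Agent.Y226.ZM.Pure
import Pool.Agent.Y226.ZM.Pkg

/-!
# The uniform theorem for algebraic points
-/

set_option autoImplicit false
set_option linter.unusedSectionVars false

open UpperHalfPlane H294ZP Polynomial

namespace Pool.Agent.Y226.ZG

open Pool.Agent.Y226 Pool.Agent.Y226.ZM

/-- the local data, with coefficients in a number field -/
theorem exists_locu {𝔽 : Type} [Field 𝔽] [Algebra QA 𝔽] {n : ℕ} (𝒞 : GP QA 𝔽 n)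
    {I : Ideal (MvPolynomial (Fin n) QA)}
    (hI : ∀ f : MvPolynomial (Fin n) QA, MvPolynomial.aeval 𝒞.x f = 0 ↔ f ∈ I) {W : ℕ}
    (hW : 0 < W) :
    ∃ (F₀ : IntermediateField ℚ QA) (_ : FiniteDimensional ℚ F₀) (M d D D₀ : ℕ),
      ∀ (p : ℕ) [Fact p.Prime], D₀ < p → ∀ (C : Type) [NormedField C]
      [IsUltrametricDist C] [CompleteSpace C] [CharZero C] [IsAlgClosed C] (φ : QA →+* C),
      0 < ‖(p : C)‖ → ‖(p : C)‖ < 1 → ∀ (k : Type) [Field k] (red : OO C →+* k),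
      (∀ x : OO C, red x = 0 ↔ ‖(x : C)‖ < 1) →
      ∃ 𝓛 : Loc C p k n 𝒞.N W M d D, 𝓛.φ = φ ∧ 𝓛.red = red ∧ (∀ r : 𝓛.R, (r : QA) ∈ F₀) ∧
        ∀ φ' : QA →+* C, (∀ a ∈ F₀, φ' a = φ a) →
          ∀ P : Fin n → QA, (∀ f ∈ I, MvPolynomial.eval P f = 0) → 𝓛.Pt (fun i => φ' (P i)) := by
  classical
  set M := W * 𝒞.N + W with hM
  obtain ⟨H, d, D, hH1, hH2, S₀, hS₀⟩ := 𝒞.exists_RD W M
  choose Dn hDn using nr_large
  refine ⟨IntermediateField.adjoin ℚ (S₀ : Set QA),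
    IntermediateField.finiteDimensional_adjoin (fun x _ => Algebra.IsIntegral.isIntegral x), M, d, D,
    ∑ s ∈ S₀, Dn s + 16 * D ^ 2 * d ^ 2 + (16 * d ^ 2 + 2) + (𝒞.N + 2) + (D + 2) + W +
    2 * M ^ 2, ?_⟩
  intro p hpf hp C _ _ _ _ _ φ hp0 hp1 k _ red hker
  have hpC : (p : C) ≠ 0 := norm_pos_iff.1 hp0
  set F₀ := IntermediateField.adjoin ℚ (S₀ : Set QA) with hF₀
  set R : Subring QA := (Nr C p).comap φ ⊓ F₀.toSubfield.toSubring with hR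
  have hmem : ∀ s ∈ S₀, s ∈ R := by
    intro s hs
    have h1 : Dn s ≤ ∑ s ∈ S₀, Dn s := Finset.single_le_sum (f := Dn) (fun _ _ => Nat.zero_le _) hs
    exact ⟨hDn s p (by omega) C φ hp1, IntermediateField.subset_adjoin ℚ _ hs⟩
  obtain ⟨𝓡, hg, hh, hys⟩ := hS₀ R hmem
  set pu : Cˣ := Units.mk0 (p : C) hpC with hpu
  let 𝓛 : Loc C p k n 𝒞.N W M d D :=
    { φ := φ, red := red, hker := hker, hp0 := hp0, hp1 := hp1, R := R, hR := fun r => r.2.1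
      𝓡 := 𝓡, Λ := fun _ => pu⁻¹, w := fun _ => 1, hw := fun _ => ⟨one_pos, hW⟩, e := 1
      he := one_pos, pu := pu, hpu := rfl
      hΛ := fun i => by
        rw [mul_one, pow_one, inv_mul_cancel]
        exact one_mem _
      tm := fun i => 0
      htm := fun i => by
        rw [norm_zero]
        positivity
      b1 := by omega
      b2 := by omega
      b3 := by omega
      b4 := by omega
      b5 := by omega
      b6 := by omega
      hN := 𝒞.hN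
      hM := le_rfl }
  refine ⟨𝓛, rfl, rfl, fun r => r.2.2, ?_⟩
  intro φ' hφ' P hP
  have he : 𝓛.ψ = φ'.comp R.subtype := RingHom.ext fun r => (hφ' r r.2.2).symm
  have hxi : ∀ i, MvPolynomial.aeval 𝒞.x (MvPolynomial.X i : MvPolynomial (Fin n) QA) = 𝒞.x i :=
    fun i => MvPolynomial.aeval_X _ _
  refine ⟨fun i j hij => ?_, fun i j hij hx0 => ?_, fun v w hv hw hvw hsupp => ?_⟩
  · rw [he]
    refine toC φ' (hg i false j hij) (pt_rel hI hP (u := MvPolynomial.X i) (u' := 1)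
      (w := MvPolynomial.X j) (w' := 1) (a := 𝒞.x i) (b := 𝒞.x j) ?_ ?_
      (𝒞.rel i false j hij) (a' := P i) (b' := P j) ?_ ?_ ?_ ?_) rfl rfl
    · rw [hxi, map_one, mul_one]
    · rw [hxi, map_one, mul_one]
    · simp
    · simp
    · simp
    · simp
  · rw [he]
    have hP0 : P i ≠ 0 := fun h => hx0 (by rw [h, map_zero])
    refine toC φ' (hg i true j hij) (pt_rel hI hP (u := 1) (u' := MvPolynomial.X i)
      (w := MvPolynomial.X j) (w' := 1) (a := (𝒞.x i)⁻¹) (b := 𝒞.x j) ?_ ?_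
      (𝒞.rel i true j hij) (a' := (P i)⁻¹) (b' := P j) ?_ ?_ ?_ ?_) (map_inv₀ φ' _) rfl
    · rw [hxi, map_one, inv_mul_cancel₀ (𝒞.x_ne i)]
    · rw [hxi, map_one, mul_one]
    · rw [MvPolynomial.eval_X, map_one, inv_mul_cancel₀ hP0]
    · simp
    · simpa using hP0
    · simp
  · rw [he]
    have hsv : ∀ i, v i ≠ 0 → P i ≠ 0 := fun i hi h0 =>
      hsupp i (Or.inl hi) (by rw [h0, map_zero])
    have hsw : ∀ i, w i ≠ 0 → P i ≠ 0 := fun i hi h0 =>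
      hsupp i (Or.inr hi) (by rw [h0, map_zero])
    refine toC φ' (hh v w hv hw hvw) (pt_rel hI hP (u := mnum QA v)
      (u' := mnum QA (fun i => -v i))
      (w := mnum QA w) (w' := mnum QA (fun i => -w i)) (a := 𝒞.mon v) (b := 𝒞.mon w) ?_ ?_
      (hH1 v w hvw) (a' := ∏ i, P i ^ v i) (b' := ∏ i, P i ^ w i) ?_ ?_ ?_ ?_) ?_ ?_
    · exact mnum_map ((MvPolynomial.aeval 𝒞.x :
        MvPolynomial (Fin n) QA →ₐ[QA] 𝔽).toRingHom) hxi (fun i _ => 𝒞.x_ne i)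
    · exact mnum_map ((MvPolynomial.aeval 𝒞.x :
        MvPolynomial (Fin n) QA →ₐ[QA] 𝔽).toRingHom) hxi (fun i _ => 𝒞.x_ne i)
    · exact mnum_map (MvPolynomial.eval P) (fun i => MvPolynomial.eval_X i) hsv
    · exact mnum_map (MvPolynomial.eval P) (fun i => MvPolynomial.eval_X i) hsw
    · exact mnum_ne hsv
    · exact mnum_ne hsw
    · rw [map_prod]
      exact Finset.prod_congr rfl fun i _ => map_zpow₀ φ' _ _
    · rw [map_prod]
      exact Finset.prod_congr rfl fun i _ => map_zpow₀ φ' _ _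

/-- the conjugates of an algebraic number -/
theorem conj_finite {C : Type} [NormedField C] [CharZero C] (α : QA) :
    {c : C | ∃ φ : QA →+* C, c = φ α}.Finite := by
  have h0 : (minpoly ℚ α) ≠ 0 := minpoly.ne_zero (Algebra.IsIntegral.isIntegral α)
  refine ((minpoly ℚ α).rootSet_finite C).subset ?_
  rintro c ⟨φ, rfl⟩
  rw [mem_rootSet]
  refine ⟨h0, ?_⟩
  have h1 : aeval (φ.toRatAlgHom α) (minpoly ℚ α) = 0 := by
    rw [aeval_algHom_apply, minpoly.aeval, map_zero]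
  exact h1

theorem glob_u {𝔽 : Type} [Field 𝔽] [Algebra QA 𝔽] {n : ℕ} (𝒞 : GP QA 𝔽 n)
    {I : Ideal (MvPolynomial (Fin n) QA)}
    (hI : ∀ f : MvPolynomial (Fin n) QA, MvPolynomial.aeval 𝒞.x f = 0 ↔ f ∈ I) (W : ℕ)
    (Γ : Finset ℂ) (hΓ : ∀ γ ∈ Γ, IsAlgebraic ℚ γ) :
    ∃ D₀ : ℕ, ∀ (p : ℕ) [Fact p.Prime], D₀ < p → ∀ (C : Type) [NormedField C]
      [IsUltrametricDist C] [CompleteSpace C] [CharZero C] [IsAlgClosed C],
      0 < ‖(p : C)‖ → ‖(p : C)‖ < 1 → ∀ (k : Type) [Field k] [CharP k p] [IsAlgClosed k]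
      (red : OO C →+* k), (∀ x : OO C, red x = 0 ↔ ‖(x : C)‖ < 1) → ∀ f : ℕ, 0 < f →
      ∃ G : ℕ, ∀ (φ' : QA →+* C) (lam mu : Fin n → QA) (w : Fin n → ℕ) (e : ℕ) (F : Subfield C),
        0 < e → (∀ i, 0 < w i ∧ w i ≤ W) → Unr p F f → (∀ i, φ' (lam i) ∈ F) →
        (∀ i, φ' (mu i) ∈ F) → (∀ i, ‖φ' (lam i)‖ = ‖(p : C)‖⁻¹ ^ (w i * e)) →
        (∀ i, ‖φ' (mu i)‖ ≤ ‖(p : C)‖ * ‖φ' (lam i)‖) → ∀ P : Fin n → QA, OnV I P →
        ∀ (r : ℕ) (cls : Fin n → Option (Fin r)), r + 2 ≤ n →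
        (∀ i, cls i = none → IsIntegral (Algebra.adjoin ℤ (Γ : Set ℂ)) (rA (lam i * P i + mu i))) →
        (∀ j l c, j ≠ l → cls j = some c → cls l = some c → ∃ (w w' : ℍ) (a b c' d' : ℤ),
          0 < a * d' - b * c' ∧ (w' : ℂ) * (c' * w + d') = a * w + b ∧
          rA (lam j * P j + mu j) = jj w ∧ rA (lam l * P l + mu l) = jj w') →
        ∃ j l : Fin n, j ≠ l ∧ (∃ c, cls j = some c ∧ cls l = some c) ∧ ∃ N' : ℕ, 0 < N' ∧ N' ≤ G ∧
          PsiE ιZ (mP N') (mD N') (rA (lam j * P j + mu j)) (rA (lam l * P l + mu l)) = 0 := by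
  classical
  obtain ⟨F₀, hfd, M, d, D, D₁, hD₁⟩ := exists_locu 𝒞 hI (Nat.succ_pos W)
  have hΓ' : ∀ γ : ℂ, ∃ c : QA, IsAlgebraic ℚ γ → rA c = γ := by
    intro γ
    by_cases h : IsAlgebraic ℚ γ
    · exact ⟨⟨γ, mem_QA.2 h⟩, fun _ => rfl⟩
    · exact ⟨0, fun h' => absurd h' h⟩
  choose gg hgg using hΓ'
  choose Di hDi using integral_large
  refine ⟨D₁ + ∑ γ ∈ Γ, Di (gg γ), ?_⟩
  intro p hpf hp C _ _ _ _ _ hp0 hp1 k _ _ _ red hker f hf
  set K : Set k := (fun q : OO C × k × k => red q.1 * q.2.1 + q.2.2) ''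
    ({cO : OO C | ∃ φ : QA →+* C, (cO : C) = φ (iA (cj 1))} ×ˢ (Kq k p f ×ˢ Kq k p f)) with hK
  have hKf : K.Finite := by
    refine Set.Finite.image _ (Set.Finite.prod ?_ ((Kq_finite k hpf.out.one_lt hf).prod
      (Kq_finite k hpf.out.one_lt hf)))
    refine Set.Finite.of_finite_image (f := fun c : OO C => (c : C)) ?_
      (Set.injOn_of_injective Subtype.coe_injective)
    refine (conj_finite (C := C) (iA (cj 1))).subset ?_
    rintro _ ⟨c, ⟨φ, hφ⟩, rfl⟩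
    exact ⟨φ, hφ⟩
  have hτ : ∀ τ : F₀ →ₐ[ℚ] C, ∃ G : ℕ, ∀ φ' : QA →+* C, (∀ a : F₀, φ' a = τ a) →
      ∀ (lam mu : Fin n → QA) (w : Fin n → ℕ) (e : ℕ) (F : Subfield C),
        0 < e → (∀ i, 0 < w i ∧ w i ≤ W) → Unr p F f → (∀ i, φ' (lam i) ∈ F) →
        (∀ i, φ' (mu i) ∈ F) → (∀ i, ‖φ' (lam i)‖ = ‖(p : C)‖⁻¹ ^ (w i * e)) →
        (∀ i, ‖φ' (mu i)‖ ≤ ‖(p : C)‖ * ‖φ' (lam i)‖) → ∀ P : Fin n → QA, OnV I P →
        ∀ (r : ℕ) (cls : Fin n → Option (Fin r)), r + 2 ≤ n →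
        (∀ i, cls i = none → IsIntegral (Algebra.adjoin ℤ (Γ : Set ℂ)) (rA (lam i * P i + mu i))) →
        (∀ j l c, j ≠ l → cls j = some c → cls l = some c → ∃ (w w' : ℍ) (a b c' d' : ℤ),
          0 < a * d' - b * c' ∧ (w' : ℂ) * (c' * w + d') = a * w + b ∧
          rA (lam j * P j + mu j) = jj w ∧ rA (lam l * P l + mu l) = jj w') →
        ∃ j l : Fin n, j ≠ l ∧ (∃ c, cls j = some c ∧ cls l = some c) ∧ ∃ N' : ℕ, 0 < N' ∧ N' ≤ G ∧
          PsiE ιZ (mP N') (mD N') (rA (lam j * P j + mu j)) (rA (lam l * P l + mu l)) = 0 := by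
    intro τ
    by_cases hex : ∃ φ : QA →+* C, ∀ a : F₀, φ a = τ a
    · obtain ⟨φ, hφ⟩ := hex
      obtain ⟨𝓛, h𝓛, hred, hR, hPt⟩ := hD₁ p (by omega) C φ hp0 hp1 k red hker
      obtain ⟨G, hG⟩ := 𝓛.core_u hKf
      refine ⟨G, ?_⟩
      intro φ' hφ' lam mu w e F he hw hF hlF hmF hlam hmu P hP r cls hr hint hrel
      have hagree : ∀ a ∈ F₀, φ' a = φ a := fun a ha => by
        rw [hφ' ⟨a, ha⟩, hφ ⟨a, ha⟩]
      obtain ⟨𝓓, hΛ, htm, hgood⟩ := 𝓛.exists_dyn φ' hf hF (L := fun i => φ' (lam i))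
        (t := fun i => φ' (mu i)) (w := w) he (fun i => ⟨(hw i).1, (hw i).2.trans (Nat.le_succ W)⟩)
        hlam hmu hlF hmF (K := K) (by
          intro cO hcO a ha b hb
          rw [hred]
          exact ⟨(cO, a, b), ⟨⟨φ', hcO⟩, ha, hb⟩, rfl⟩)
      refine hG φ' (fun r => by rw [h𝓛]; exact hagree r (hR r)) 𝓓 hgood
        (fun i => lam i * P i + mu i) (fun i => φ' (P i)) (hPt φ' hagree P hP) (fun i => ?_) r cls hr
        (fun i hi => ?_) hrel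
      · rw [map_add, map_mul, hΛ, htm]
      · refine norm_le_one_of_adjoin φ' (fun γ hγ => ⟨gg γ, hgg γ (hΓ γ hγ), ?_⟩) (hint i hi)
        refine hDi (gg γ) p ?_ C φ' hp1
        have : Di (gg γ) ≤ ∑ γ ∈ Γ, Di (gg γ) :=
          Finset.single_le_sum (f := fun γ => Di (gg γ)) (fun _ _ => Nat.zero_le _) hγ
        omega
    · exact ⟨0, fun φ' hφ' => absurd ⟨φ', hφ'⟩ hex⟩
  choose G hG using hτ
  haveI : Finite (F₀ →ₐ[ℚ] C) := inferInstance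
  haveI := Fintype.ofFinite (F₀ →ₐ[ℚ] C)
  refine ⟨∑ τ : F₀ →ₐ[ℚ] C, G τ, ?_⟩
  intro φ' lam mu w e F he hw hF hlF hmF hlam hmu P hP r cls hr hint hrel
  set τ : F₀ →ₐ[ℚ] C := (φ'.comp (algebraMap F₀ QA)).toRatAlgHom with hτ
  obtain ⟨j, l, hjl, hc, N', h1, h2, h3⟩ := hG τ φ' (fun a => rfl) lam mu w e F he hw hF hlF hmF hlam
    hmu P hP r cls hr hint hrel
  refine ⟨j, l, hjl, hc, N', h1, h2.trans ?_, h3⟩
  exact Finset.single_le_sum (f := G) (fun _ _ => Nat.zero_le _) (Finset.mem_univ τ)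

end Pool.Agent.Y226.ZG
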