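import Pool.Agent.Y226.ZU.Core

/-!
# Parameters in unramified fields
-/

set_option autoImplicit false
set_option linter.unusedSectionVars false

open UpperHalfPlane H294ZP Polynomial

namespace Pool.Agent.Y226.ZG

open Pool.Agent.Y226

/-- subfields of `C` which are unramified, with residue field in the field of `p ^ f` elements -/
def Unr {C : Type} [NormedField C] (p : ℕ) (F : Subfield C) (f : ℕ) : Prop :=
  ∀ c ∈ F, ‖c‖ ≤ 1 → ‖c ^ p ^ f - c‖ ≤ ‖(p : C)‖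

/-- the elements fixed by the Frobenius -/
def Kq (k : Type) [Field k] (p f : ℕ) : Set k := {z | z ^ p ^ f = z}

theorem Kq_finite (k : Type) [Field k] {p f : ℕ} (hp : 1 < p) (hf : 0 < f) : (Kq k p f).Finite := by
  have h1 : 1 < p ^ f := Nat.one_lt_pow hf.ne' hp
  have hne : (X ^ p ^ f - X : k[X]) ≠ 0 := by
    refine (monic_X_pow_sub ?_).ne_zero
    rw [degree_X]
    exact_mod_cast h1
  refine ((X ^ p ^ f - X : k[X]).rootSet_finite k).subset ?_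
  intro z hz
  rw [mem_rootSet]
  refine ⟨hne, ?_⟩
  have h2 : z ^ p ^ f = z := hz
  simp [h2]

namespace Loc

variable {C : Type} [NormedField C] [IsUltrametricDist C] [CompleteSpace C] [CharZero C]
  [IsAlgClosed C] {p : ℕ} [hpf : Fact p.Prime] {k : Type}
  [Field k] {n N W M d D : ℕ} (𝓛 : Loc C p k n N W M d D)

theorem red_Kq {F : Subfield C} {f : ℕ} (hF : Unr p F f) {x : OO C} (hx : (x : C) ∈ F) :
    𝓛.red x ∈ Kq k p f := by
  show 𝓛.red x ^ p ^ f = 𝓛.red x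
  rw [← map_pow]
  apply 𝓛.red_congr
  show ‖(x : C) ^ p ^ f - (x : C)‖ < 1
  exact (hF _ hx x.2).trans_lt 𝓛.hp1

theorem exists_dyn (φ' : QA →+* C) {f : ℕ} (hf : 0 < f) {F : Subfield C} (hF : Unr p F f)
    {L t : Fin n → C} {w : Fin n → ℕ} {e : ℕ} (he : 0 < e) (hw : ∀ i, 0 < w i ∧ w i ≤ W)
    (hL : ∀ i, ‖L i‖ = ‖(p : C)‖⁻¹ ^ (w i * e)) (ht : ∀ i, ‖t i‖ ≤ ‖(p : C)‖ * ‖L i‖)
    (hLF : ∀ i, L i ∈ F) (htF : ∀ i, t i ∈ F) {K : Set k}
    (hK : ∀ cO : OO C, (cO : C) = φ' (iA (cj 1)) → ∀ a ∈ Kq k p f, ∀ b ∈ Kq k p f,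
      𝓛.red cO * a + b ∈ K) :
    ∃ 𝓓 : Dyn C p n W, (∀ i, (𝓓.Λ i : C) = L i) ∧ (∀ i, 𝓓.tm i = t i) ∧ 𝓛.Good K φ' 𝓓 := by
  have hp0 := 𝓛.hp0
  have hp1 := 𝓛.hp1
  have hpC : (p : C) ≠ 0 := norm_pos_iff.1 hp0
  have hpF : (p : C) ∈ F := natCast_mem F p
  have hLpos : ∀ i, 0 < ‖L i‖ := fun i => by rw [hL]; exact pow_pos (inv_pos.2 hp0) _
  have hL0 : ∀ i, L i ≠ 0 := fun i => norm_pos_iff.1 (hLpos i)
  set pu : Cˣ := Units.mk0 (p : C) hpC with hpu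
  have hnorm1 : ∀ i, ‖L i * (p : C) ^ (w i * e)‖ = 1 := by
    intro i
    rw [norm_mul, hL, norm_pow, inv_pow]
    exact inv_mul_cancel₀ (pow_pos hp0 _).ne'
  have hmemF : ∀ i, L i * (p : C) ^ (w i * e) ∈ F := fun i => mul_mem (hLF i) (pow_mem hpF _)
  have hNr : ∀ c ∈ F, ‖c‖ ≤ 1 → c ∈ Nr C p := fun c hc h1 => ⟨h1, f, hf, hF c hc h1⟩
  let 𝓓 : Dyn C p n W :=
    { Λ := fun i => Units.mk0 (L i) (hL0 i)
      w := w
      hw := hw
      e := e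
      he := he
      pu := pu
      hpu := rfl
      hΛ := fun i => by
        refine GG_of_close (hNr _ (hmemF i) (hnorm1 i).le) (hnorm1 i) ?_
        rw [Units.val_mul, Units.val_mk0, Units.val_pow_eq_pow_val, hpu, Units.val_mk0, sub_self,
          norm_zero]
      tm := t
      htm := ht }
  have hpL : ∀ i, 1 ≤ ‖(p : C) * L i‖ := by
    intro i
    have h1 : ‖(p : C)‖ ^ (w i * e) ≤ ‖(p : C)‖ :=
      pow_le_of_le_one hp0.le hp1.le (Nat.mul_pos (hw i).1 he).ne'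
    rw [norm_mul, hL, inv_pow]
    have h2 : 0 < ‖(p : C)‖ ^ (w i * e) := pow_pos hp0 _
    rw [← div_eq_mul_inv, one_le_div h2]
    exact h1
  have hpL0 : ∀ i, (p : C) * L i ≠ 0 := fun i => mul_ne_zero hpC (hL0 i)
  refine ⟨𝓓, fun i => rfl, fun i => rfl, ?_, ?_⟩
  · -- the coefficients `κ`
    have hc1 : ‖φ' (iA (cj 1))‖ ≤ 1 := psi_norm φ' (cj 1)
    set cO : OO C := ⟨φ' (iA (cj 1)), hc1⟩ with hcO
    have ha : ∀ i, ‖((p : C) * L i)⁻¹‖ ≤ 1 := fun i => by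
      rw [norm_inv]; exact inv_le_one_of_one_le₀ (hpL i)
    have hb : ∀ i, ‖-(t i) * ((p : C) * L i)⁻¹‖ ≤ 1 := fun i => by
      have h1 : ‖t i‖ ≤ ‖(p : C) * L i‖ := by rw [norm_mul]; exact ht i
      rw [norm_mul, norm_neg, norm_inv, ← div_eq_mul_inv]
      exact div_le_one_of_le₀ h1 (norm_nonneg _)
    set a : Fin n → OO C := fun i => ⟨_, ha i⟩ with hadef
    set b : Fin n → OO C := fun i => ⟨_, hb i⟩ with hbdef
    refine ⟨fun i => cO * a i + b i, fun i => ?_, fun i => ?_⟩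
    · show (p : C) * (φ' (iA (cj 1)) * ((p : C) * L i)⁻¹ + -(t i) * ((p : C) * L i)⁻¹) * L i =
        φ' (iA (cj 1)) - t i
      have := hpL0 i
      have := hL0 i
      field_simp
      ring
    · rw [map_add, map_mul]
      refine hK cO rfl _ (𝓛.red_Kq hF ?_) _ (𝓛.red_Kq hF ?_)
      · exact inv_mem (mul_mem hpF (hLF i))
      · exact mul_mem (neg_mem (htF i)) (inv_mem (mul_mem hpF (hLF i)))
  · -- the unit parts
    intro j l A B hA hB hμ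
    have hc1 : ‖φ' (iA (cj 1))‖ ≤ 1 := psi_norm φ' (cj 1)
    set cO : OO C := ⟨φ' (iA (cj 1)), hc1⟩ with hcO
    have h0K : (0 : k) ∈ Kq k p f := by
      show (0 : k) ^ p ^ f = 0
      exact zero_pow (pow_pos hpf.out.pos f).ne'
    have hKq : ∀ z ∈ Kq k p f, z ∈ K := by
      intro z hz
      have := hK cO rfl 0 h0K z hz
      rwa [mul_zero, zero_add] at this
    set μ : Cˣ := 𝓓.Λ l ^ B * (𝓓.Λ j ^ A)⁻¹ with hμdef
    have hμn : ‖(μ : C)‖ = 1 := GG_norm hμ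
    have hμF : (μ : C) ∈ F := by
      rw [hμdef, Units.val_mul, Units.val_pow_eq_pow_val, Units.val_inv_eq_inv_val,
        Units.val_pow_eq_pow_val]
      exact mul_mem (pow_mem (hLF l) _) (inv_mem (pow_mem (hLF j) _))
    have hmF : ((μ⁻¹ : Cˣ) : C) ∈ F := by
      rw [Units.val_inv_eq_inv_val]
      exact inv_mem hμF
    set m : C := ((μ⁻¹ : Cˣ) : C) with hm
    have hmn : ‖m‖ = 1 := by rw [hm, Units.val_inv_eq_inv_val, norm_inv, hμn, inv_one]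
    refine ⟨?_, ⟨(μ : C), hμn.le⟩, rfl, hKq _ (𝓛.red_Kq hF hμF)⟩
    have hmq := hF m hmF hmn.le
    obtain ⟨ζ, hζ, hlt⟩ := exists_fixed hf (hmq.trans_lt hp1)
    have hζN := Nr_of_fixed hf hζ
    have hgap : ‖m - ζ‖ ≤ ‖(p : C)‖ := Nr_gap (sub_mem (hNr m hmF hmn.le) hζN) hlt
    have hζ1 : ‖ζ‖ = 1 := by
      refine neq_one (y := m) ?_ hmn
      rw [← norm_neg, neg_sub]
      exact hlt
    have hζ0 : ζ ≠ 0 := norm_pos_iff.1 (by rw [hζ1]; exact one_pos)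
    have hle' : ‖(m - ζ) * ζ⁻¹‖ ≤ ‖(p : C)‖ := nmul_le' hgap (by rw [norm_inv, hζ1, inv_one])
    obtain ⟨ν, hν⟩ := 𝓛.divp hle'
    have hmν : m = ζ * (1 + p * ν) := by
      rw [← hν]
      field_simp
      ring
    set τ : OO C := ⟨ζ, hζ1.le⟩ with hτ
    have hτf : τ ^ p ^ f = τ := Subtype.ext hζ
    refine ⟨τ, ν, hmν, ⟨f, hf, hτf⟩, hKq _ ?_⟩
    -- the residue of `ν`
    have han : ‖(m - m ^ p ^ f) * (p : C)⁻¹‖ ≤ 1 := by
      rw [norm_mul, norm_inv, ← div_eq_mul_inv]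
      refine div_le_one_of_le₀ ?_ (norm_nonneg _)
      rw [← norm_neg, neg_sub]
      exact hmq
    set a : OO C := ⟨_, han⟩ with ha
    have haF : (a : C) ∈ F := mul_mem (sub_mem hmF (pow_mem hmF _)) (inv_mem hpF)
    have haK := 𝓛.red_Kq hF haF
    have hq : ‖((p ^ f : ℕ) : C)‖ ≤ ‖(p : C)‖ := by
      obtain ⟨f', rfl⟩ : ∃ f', f = f' + 1 := ⟨f - 1, by omega⟩
      rw [pow_succ, Nat.cast_mul, norm_mul]
      have h1 := nnat (C := C) (p ^ f')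
      have h2 := norm_nonneg (p : C)
      nlinarith
    have hu : ‖(1 + p * ν : C)‖ ≤ 1 := nadd_le norm_one.le ((nmul_le' le_rfl ν.2).trans hp1.le)
    have hexp := pow_expand (P := (p : C)) (u := 1 + p * ν) (a := (ν : C)) hp1.le ν.2 (by simp) hu
      (p ^ f)
    have hexp2 : ‖(1 + p * ν : C) ^ p ^ f - 1‖ ≤ ‖(p : C)‖ ^ 2 := by
      have e1 : (1 + p * ν : C) ^ p ^ f - 1 = ((1 + p * ν : C) ^ p ^ f -
        (1 + p * ((p ^ f : ℕ) * (ν : C)))) + p * ((p ^ f : ℕ) * (ν : C)) := by ring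
      rw [e1]
      refine nadd_le hexp ?_
      rw [norm_mul, sq]
      exact mul_le_mul_of_nonneg_left (nmul_le' hq ν.2) (norm_nonneg _)
    have hrel : 𝓛.red a = 𝓛.red (τ * ν) := by
      apply 𝓛.red_congr
      show ‖(m - m ^ p ^ f) * (p : C)⁻¹ - ζ * (ν : C)‖ < 1
      have e1 : (m - m ^ p ^ f) * (p : C)⁻¹ - ζ * (ν : C) =
          -(ζ * ((1 + p * ν : C) ^ p ^ f - 1)) * (p : C)⁻¹ := by
        have e2 : m ^ p ^ f = ζ * (1 + p * ν : C) ^ p ^ f := by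
          rw [hmν, mul_pow, hζ]
        rw [e2, hmν]
        field_simp
        ring
      rw [e1, norm_mul, norm_neg, norm_mul, hζ1, one_mul, norm_inv]
      calc ‖(1 + p * ν : C) ^ p ^ f - 1‖ * ‖(p : C)‖⁻¹ ≤ ‖(p : C)‖ ^ 2 * ‖(p : C)‖⁻¹ := by gcongr
        _ = ‖(p : C)‖ := by field_simp
        _ < 1 := hp1
    have hτ0 : 𝓛.red τ ≠ 0 := by
      rw [Ne, 𝓛.hker]
      show ¬ ‖ζ‖ < 1
      rw [hζ1]
      exact lt_irrefl 1
    have hτK : 𝓛.red τ ^ p ^ f = 𝓛.red τ := by rw [← map_pow, hτf]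
    rw [map_mul] at hrel
    show 𝓛.red ν ^ p ^ f = 𝓛.red ν
    have h1 : 𝓛.red a ^ p ^ f = 𝓛.red a := haK
    rw [hrel, mul_pow, hτK] at h1
    exact mul_left_cancel₀ hτ0 h1

end Loc

end Pool.Agent.Y226.ZG
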